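import Pool.Agent.U192.TD.Main
import Pool.Agent.U192.NM.Main
import Pool.Agent.U192.PN.Main
import Pool.Agent.Y174.B5

/-!
Rational function fields over the base: uniruledness.
-/

set_option autoImplicit false
set_option linter.overlappingInstances false
set_option linter.unusedSectionVars false

open FF Pool.Agent.W619.PQ Pool.Agent.W602.GT
open Pool.Agent.Y174 (PairSec PairKod PairNum IsPull)

namespace Pool.Agent.U192.TD

/-- rational function fields have the expected transcendence degree -/
theorem trdeg_rational {F E : Type} [Field F] [Field E] [Algebra F E] {k : ℕ} {t : Fin k → E}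
    (ht : AlgebraicIndependent F t) (htop : IntermediateField.adjoin F (Set.range t) = ⊤) :
    Algebra.trdeg F E = k := by
  have hb : IsTranscendenceBasis F t := by
    rw [ht.isTranscendenceBasis_iff_isAlgebraic, ← IntermediateField.isAlgebraic_adjoin_iff_top,
      htop]
    exact ⟨fun z => isAlgebraic_algebraMap (⟨z, trivial⟩ : (⊤ : IntermediateField F E))⟩
  have h1 := hb.cardinalMk_eq_trdeg
  rw [← h1, Cardinal.mk_fin]

section

variable {L : Type} [Field L] [Algebra ℂ L]

theorem trdeg_total (U : IntermediateField ℂ L) {d k : ℕ} (hU : Algebra.trdeg ℂ U = d)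
    {t : Fin k → L} (ht : AlgebraicIndependent U t)
    (htop : IntermediateField.adjoin U (Set.range t) = ⊤) :
    Algebra.trdeg ℂ L = (d + k : ℕ) := by
  have h1 := _root_.trdeg_add_eq ℂ U (A := L)
  rw [hU, trdeg_rational ht htop] at h1
  rw [← h1]
  push_cast
  rfl

/-- a product with a projective space of positive dimension is uniruled -/
theorem uniruled_rational (U : IntermediateField ℂ L) [Algebra.EssFiniteType ℂ L] {d k : ℕ}
    (hU : Algebra.trdeg ℂ U = d) {t : Fin (k + 1) → L} (ht : AlgebraicIndependent U t)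
    (htop : IntermediateField.adjoin U (Set.range t) = ⊤) :
    IsUniruled ℂ L (d + (k + 1)) := by
  obtain ⟨N, hN⟩ : ∃ N : IntermediateField U L, N = IntermediateField.adjoin U
    (t '' {i | i ≠ Fin.last k}) := ⟨_, rfl⟩
  obtain ⟨M, hM⟩ : ∃ M : IntermediateField ℂ L, M = N.restrictScalars ℂ := ⟨_, rfl⟩
  have hMN : ∀ z, z ∈ M ↔ z ∈ N := fun z => by rw [hM]; rfl
  have hs0 : Transcendental N (t (Fin.last k)) := by
    rw [hN, IntermediateField.transcendental_adjoin_iff]
    exact ht.transcendental_adjoin (fun h => h rfl)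
  have hs : Transcendental M (t (Fin.last k)) := by
    intro h
    apply hs0
    have h2 := IsAlgebraic.ringHom_of_comp_eq (R := M) (A := L) (S := N) (B := L)
      ({ toFun := fun z => ⟨z, (hMN z).1 z.2⟩
         map_one' := rfl
         map_mul' := fun _ _ => rfl
         map_zero' := rfl
         map_add' := fun _ _ => rfl } : M →+* N) (RingHom.id L) h ?_ ?_
    · exact h2
    · intro a b hab
      exact Subtype.ext (congrArg (fun z : N => (z : L)) hab)
    · ext z
      rfl
  have hgen : IntermediateField.adjoin M ({t (Fin.last k)} : Set L) = ⊤ := by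
    rw [eq_top_iff]
    intro z _
    have h1 : z ∈ IntermediateField.adjoin U (Set.range t) := by
      rw [htop]
      trivial
    refine IntermediateField.adjoin_induction U
      (p := fun z _ => z ∈ IntermediateField.adjoin M ({t (Fin.last k)} : Set L))
      ?_ ?_ ?_ ?_ ?_ h1
    · rintro _ ⟨i, rfl⟩
      by_cases hi : i = Fin.last k
      · rw [hi]
        exact IntermediateField.subset_adjoin _ _ rfl
      · have h2 : t i ∈ M := by
          rw [hMN, hN]
          exact IntermediateField.subset_adjoin _ _ ⟨i, hi, rfl⟩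
        exact (IntermediateField.adjoin M ({t (Fin.last k)} : Set L)).algebraMap_mem ⟨t i, h2⟩
    · intro u
      have h2 : algebraMap U L u ∈ M := by
        rw [hMN]
        exact N.algebraMap_mem u
      exact (IntermediateField.adjoin M ({t (Fin.last k)} : Set L)).algebraMap_mem
        ⟨algebraMap U L u, h2⟩
    · intro x y _ _ hx hy
      exact add_mem hx hy
    · intro x _ hx
      exact inv_mem hx
    · intro x y _ _ hx hy
      exact mul_mem hx hy
  have h1 := _root_.trdeg_add_eq ℂ M (A := L)
  have hi1 : AlgebraicIndependent M (fun _ : Fin 1 => t (Fin.last k)) := by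
    rw [algebraicIndependent_unique_type_iff]
    exact hs
  have h2 : Algebra.trdeg M L = (1 : ℕ) := by
    refine trdeg_rational hi1 ?_
    rw [Set.range_const]
    exact hgen
  rw [trdeg_total U hU ht htop, h2] at h1
  have hMe : Algebra.EssFiniteType ℂ M := Pool.Agent.N999.SX.ess_any M
  refine ⟨M, inferInstance, inferInstance, hMe, ?_, ?_⟩
  · rw [Nat.cast_one] at h1
    exact h1
  · let E : RatFunc M ≃ₐ[M] L := (RatFunc.algEquivOfTranscendental _ hs).trans
      ((IntermediateField.equivOfEq hgen).trans IntermediateField.topEquiv)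
    exact ⟨(E.symm.toAlgHom).restrictScalars ℂ⟩

/-- subfields of the function field of a uniruled variety, of the same dimension -/
theorem uniruled_below {K : Type} [Field K] [Algebra ℂ K] (φ : K →ₐ[ℂ] L) {n : ℕ}
    (h : IsUniruled ℂ L n) : IsUniruled ℂ K n := by
  obtain ⟨M, i1, i2, h1, h2, ⟨ψ⟩⟩ := h
  exact ⟨M, i1, i2, h1, h2, ⟨ψ.comp φ⟩⟩

/-- the Kodaira dimension without boundary -/
theorem kodGe_of_pair {K : Type} [Field K] [Algebra ℂ K] {n a : ℕ}
    (h : PairKod ℂ K n (fun _ => 0) a) : KodGe ℂ K n (fun _ => False) a := by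
  obtain ⟨m, hm, ω, hω, D, hD, hind⟩ := h
  have hreg : ∀ l, ∀ P : Place ℂ K, Divisorial n P → RegAt P (ω l) := by
    intro l P hP G hG
    rcases (hω l).2 P hP G hG with h0 | ⟨s, hs, hs0, hle⟩
    · exact Or.inl h0
    · right
      rw [Nat.cast_zero, zero_mul, mul_zero, sub_zero] at hle
      exact_mod_cast hle
  refine ⟨m, hm, ω, fun l => ⟨(hω l).1, fun P hP G hG => hreg l P hP G fun i f hf => ?_,
    fun P hP _ => hreg l P hP⟩, D, hD 0, hind⟩
  by_cases hf0 : f = 0
  · rw [hf0, map_zero]
    exact P.reg_zero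
  · have h1 : G i f = G i f / f * f := (div_mul_cancel₀ _ hf0).symm
    rw [h1]
    exact P.reg_mul (hG i f) hf

theorem not_neg_of_kodGe {K : Type} [Field K] [Algebra ℂ K] {n a : ℕ}
    (h : KodGe ℂ K n (fun _ => False) a) : ¬ KodairaNeg ℂ K n := by
  obtain ⟨m, hm, ω, hω, D, hD, -⟩ := h
  exact fun hneg => hD (hneg m hm (ω 0) (hω 0).1 (fun v hv => (hω 0).2.2 v hv fun h => h) D)

theorem neg_of_uniruled {K : Type} [Field K] [Algebra ℂ K] [Algebra.EssFiniteType ℂ K] {n : ℕ}
    (hn : Algebra.trdeg ℂ K = n) (h : IsUniruled ℂ K n) : KodairaNeg ℂ K n := by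
  intro m hm ω h1 h2 D
  by_contra hD
  refine Pool.Agent.U192.NM.not_neg_of_kod (K := K) (n := n) (h := 0)
    ⟨m, hm, fun _ => ω, fun _ => ⟨h1, fun P hP G hG => h2 P hP G fun i f hf => ?_,
      fun P hP _ => h2 P hP⟩, D, hD, ?_⟩ (Pool.Agent.W619.Y.uniruled_neg n hn h).2
  · by_cases hf0 : f = 0
    · rw [hf0, map_zero]
      exact P.reg_zero
    · have h1 : G i f = G i f / f * f := (div_mul_cancel₀ _ hf0).symm
      rw [h1]
      exact P.reg_mul (hG i f) hf
  · exact algebraicIndependent_empty_type

/-- going up from a subfield -/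
theorem kod_top {K : Type} [Field K] [Algebra ℂ K] [Algebra.EssFiniteType ℂ K] {n a : ℕ}
    (E : IntermediateField ℂ K) (hE : ∀ z, z ∈ E) (hn : Algebra.trdeg ℂ E = n)
    (h : PairKod ℂ E n (fun _ => 0) a) : PairKod ℂ K n (fun _ => 0) a := by
  have hEe : Algebra.EssFiniteType ℂ E := Pool.Agent.N999.SX.ess_any E
  have hfin : FiniteDimensional E K := by
    refine Module.Finite.of_surjective (Algebra.linearMap E K) fun z => ⟨⟨z, hE z⟩, rfl⟩
  refine Pool.Agent.Y174.pair_up hEe hn (fun v w e he => ?_) h
  have h1 : (1 : ℝ) ≤ e := by exact_mod_cast he.1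
  rw [sub_zero, mul_one, max_eq_left (by linarith)]

/-- without variables -/
theorem mem_of_zero (U : IntermediateField ℂ L) {t : Fin 0 → L}
    (htop : IntermediateField.adjoin U (Set.range t) = ⊤) (z : L) : z ∈ U := by
  have h1 : z ∈ IntermediateField.adjoin U (Set.range t) := by
    rw [htop]
    trivial
  rw [Set.range_eq_empty, IntermediateField.adjoin_empty, IntermediateField.mem_bot] at h1
  obtain ⟨u, rfl⟩ := h1
  exact u.2

end

end Pool.Agent.U192.TD
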