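import Pool.Agent.U192.TD.Ruled
import Pool.Agent.U192.PT.Fib

/-!
The conjugates of the functions on the base are algebraic over the functions on the base.
-/

set_option autoImplicit false
set_option linter.overlappingInstances false
set_option linter.unusedSectionVars false

open FF Pool.Agent.W602.GT Pool.Agent.W603.LV Pool.Agent.W619.PQ Pool.Agent.Y172

namespace Pool.Agent.U192.TD

open Pool.Agent.U192.PT (der_eq_of_alg)

/-- the base field of a rational function field is algebraically closed in it -/
theorem closed_rational {F E : Type} [Field F] [Field E] [Algebra F E] {k : ℕ} {t : Fin k → E}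
    (ht : AlgebraicIndependent F t) (htop : IntermediateField.adjoin F (Set.range t) = ⊤) {z : E}
    (hz : IsAlgebraic F z) : ∃ c : F, algebraMap F E c = z := by
  classical
  have ht' : AlgebraicIndependent (algebraicClosure F E) t := ht.algebraicClosure
  obtain ⟨r, s, hrs⟩ := (IntermediateField.mem_adjoin_range_iff F t z).1 (by
    rw [htop]
    trivial)
  by_cases hs : s = 0
  · refine ⟨0, ?_⟩
    rw [hrs, hs, map_zero, map_zero, div_zero]
  have hs' : MvPolynomial.aeval t s ≠ 0 := by
    intro h
    exact hs (ht (by rw [h, map_zero]))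
  obtain ⟨zA, hzA⟩ : ∃ zA : algebraicClosure F E, (zA : E) = z :=
    ⟨⟨z, mem_algebraicClosure_iff.2 hz⟩, rfl⟩
  have h1 : MvPolynomial.aeval t (MvPolynomial.C zA *
      MvPolynomial.map (algebraMap F (algebraicClosure F E)) s -
      MvPolynomial.map (algebraMap F (algebraicClosure F E)) r) = 0 := by
    rw [map_sub, map_mul, MvPolynomial.aeval_C, MvPolynomial.aeval_map_algebraMap,
      MvPolynomial.aeval_map_algebraMap]
    have h2 : algebraMap (algebraicClosure F E) E zA = z := hzA
    rw [h2, hrs]
    field_simp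
    ring
  have h2 := ht' (h1.trans (map_zero _).symm)
  obtain ⟨σ, hσ⟩ : ∃ σ, s.coeff σ ≠ 0 := by
    by_contra hcon
    push Not at hcon
    exact hs (MvPolynomial.ext _ _ fun σ => by rw [hcon, MvPolynomial.coeff_zero])
  have h3 := congrArg (MvPolynomial.coeff σ) h2
  rw [MvPolynomial.coeff_sub, MvPolynomial.coeff_C_mul, MvPolynomial.coeff_map,
    MvPolynomial.coeff_map, MvPolynomial.coeff_zero] at h3
  have h4 := congrArg (algebraMap (algebraicClosure F E) E) h3
  rw [map_sub, map_mul, map_zero, ← IsScalarTower.algebraMap_apply F (algebraicClosure F E) E,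
    ← IsScalarTower.algebraMap_apply F (algebraicClosure F E) E] at h4
  have h5 : algebraMap (algebraicClosure F E) E zA = z := hzA
  rw [h5] at h4
  refine ⟨r.coeff σ / s.coeff σ, ?_⟩
  have h6 : algebraMap F E (s.coeff σ) ≠ 0 := by
    rwa [Ne, map_eq_zero]
  rw [map_div₀, div_eq_iff h6]
  exact (sub_eq_zero.1 h4).symm

/-- a derivation which vanishes on generators is zero -/
theorem der_adjoin {F E N : Type} [Field F] [Field E] [Algebra F E] [Field N] [Algebra F N]
    [Algebra E N] [IsScalarTower F E N] {T : Set E} (htop : IntermediateField.adjoin F T = ⊤)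
    {D : Derivation F E N} (hD : ∀ t ∈ T, D t = 0) (z : E) : D z = 0 := by
  let N0 : IntermediateField F E :=
    { carrier := {f | D f = 0}
      mul_mem' := fun {f g} hf hg => by
        change D (f * g) = 0
        rw [D.leibniz, show D f = 0 from hf, show D g = 0 from hg]
        simp
      add_mem' := fun {f g} hf hg => by
        change D (f + g) = 0
        rw [map_add, show D f = 0 from hf, show D g = 0 from hg, add_zero]
      algebraMap_mem' := fun c => D.map_algebraMap c
      inv_mem' := fun f hf => by
        change D f⁻¹ = 0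
        rw [D.leibniz_inv, show D f = 0 from hf, smul_zero] }
  have h1 : IntermediateField.adjoin F T ≤ N0 := by
    rw [IntermediateField.adjoin_le_iff]
    exact hD
  rw [htop] at h1
  exact h1 (IntermediateField.mem_top : z ∈ (⊤ : IntermediateField F E))

section

variable {K L Ω : Type} [Field K] [Field L] [Field Ω] [Algebra ℂ K] [Algebra ℂ L] [Algebra ℂ Ω]
  [Algebra K L] [Algebra K Ω] [Algebra L Ω] [IsScalarTower ℂ K L] [IsScalarTower ℂ K Ω]
  [IsScalarTower ℂ L Ω] [IsScalarTower K L Ω] [FiniteDimensional K L] [FiniteDimensional K Ω]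
  [Fintype (Ω ≃ₐ[K] Ω)] [Algebra.EssFiniteType ℂ K]

/-- **The conjugates of the coordinates of the base** are algebraic over the base. -/
theorem conj_coord {U : IntermediateField ℂ L} {k d n m : ℕ} (hn : Algebra.trdeg ℂ K = n)
    {x : Fin d → U} (hx : AlgebraicIndependent ℂ x) {a : U} (ha : a ≠ 0) (hm : 1 ≤ m) {s : K}
    (hs0 : s ≠ 0) (hs : RegDown K n (fun l => algebraMap L Ω (x l)) (algebraMap L Ω a) m s)
    {t : Fin k → L} (ht : AlgebraicIndependent U t)
    (htop : IntermediateField.adjoin U (Set.range t) = ⊤) (h : Ω ≃ₐ[K] Ω) (l : Fin d) :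
    IsAlgebraic U (h (algebraMap L Ω (x l))) := by
  classical
  have hU0 : CharZero U := charZero_of_injective_algebraMap (algebraMap ℂ U).injective
  have hnL : Algebra.trdeg ℂ L = n := Pool.Agent.Y172.trdeg_up hn
  have hfL : FiniteDimensional L Ω := FiniteDimensional.right K L Ω
  have hxΩ : AlgebraicIndependent ℂ (fun l => algebraMap L Ω (x l)) := by
    have h1 : AlgebraicIndependent ℂ (fun l => (x l : L)) :=
      hx.map' (f := U.val) U.val.toRingHom.injective
    exact h1.map' (f := IsScalarTower.toAlgHom ℂ L Ω) (algebraMap L Ω).injective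
  obtain ⟨Dt, hDt⟩ := Pool.Agent.TH466.QT.exists_dual_of_indep ht
  choose DΩ hDΩ using fun i => exists_lift (L := Ω) hnL ((Dt i).restrictScalars ℂ)
  have hkill : ∀ i, DΩ i (h (algebraMap L Ω (x l))) = 0 := by
    intro i
    let M1 : IntermediateField ℂ L :=
      (IntermediateField.adjoin U {z | ∃ j, j ≠ i ∧ t j = z}).restrictScalars ℂ
    have hM1 : ∀ μ : M1, Dt i (μ : L) = 0 := by
      rintro ⟨μ, hμ⟩
      have hμ' : μ ∈ IntermediateField.adjoin U {z | ∃ j, j ≠ i ∧ t j = z} := hμ
      let N0 : IntermediateField U L :=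
        { carrier := {f | Dt i f = 0}
          mul_mem' := fun {f g} hf hg => by
            change Dt i (f * g) = 0
            rw [(Dt i).leibniz, show Dt i f = 0 from hf, show Dt i g = 0 from hg]
            simp
          add_mem' := fun {f g} hf hg => by
            change Dt i (f + g) = 0
            rw [map_add, show Dt i f = 0 from hf, show Dt i g = 0 from hg, add_zero]
          algebraMap_mem' := fun c => (Dt i).map_algebraMap c
          inv_mem' := fun f hf => by
            change Dt i f⁻¹ = 0
            rw [(Dt i).leibniz_inv, show Dt i f = 0 from hf, smul_zero] }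
      have h1 : IntermediateField.adjoin U {z | ∃ j, j ≠ i ∧ t j = z} ≤ N0 := by
        rw [IntermediateField.adjoin_le_iff]
        rintro _ ⟨j, hj, rfl⟩
        change Dt i (t j) = 0
        rw [hDt, if_neg hj]
      exact h1 hμ'
    have hti : Dt i (t i) = 1 := by
      rw [hDt, if_pos rfl]
    have htr : Transcendental M1 (t i) := by
      intro halg
      have h1 := Pool.Agent.R882.WR.der_alg (E := M1) ((Dt i).restrictScalars ℂ)
        (fun c hc => hM1 ⟨c, hc⟩) halg
      have h2 : Dt i (t i) = 0 := h1
      rw [hti] at h2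
      exact one_ne_zero h2
    have htop1 : IntermediateField.adjoin M1 {t i} = ⊤ := by
      rw [eq_top_iff]
      intro z _
      have h1 : z ∈ IntermediateField.adjoin U (Set.range t) := by
        rw [htop]
        trivial
      have hle : (IntermediateField.adjoin U (Set.range t)).toSubfield ≤
          (IntermediateField.adjoin M1 {t i}).toSubfield := by
        change Subfield.closure _ ≤ _
        rw [Subfield.closure_le]
        rintro z (⟨c, rfl⟩ | ⟨j, rfl⟩)
        · have hc : algebraMap U L c ∈ M1 :=
            (IntermediateField.adjoin U {z | ∃ j, j ≠ i ∧ t j = z}).algebraMap_mem c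
          exact (IntermediateField.adjoin M1 {t i}).algebraMap_mem (⟨_, hc⟩ : M1)
        · by_cases hj : j = i
          · rw [hj]
            exact IntermediateField.mem_adjoin_simple_self _ _
          · have hc : t j ∈ M1 := IntermediateField.subset_adjoin U _ ⟨j, hj, rfl⟩
            exact (IntermediateField.adjoin M1 {t i}).algebraMap_mem (⟨_, hc⟩ : M1)
      exact hle h1
    exact ruled_const hn hxΩ (by
      rw [Ne, map_eq_zero]
      exact fun h0 => ha (Subtype.ext h0)) hm hs0 hs htr htop1
      (D0 := (Dt i).restrictScalars ℂ) hti hM1 (hDΩ i) h l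
  by_contra htr
  obtain ⟨D, hD⟩ := Pool.Agent.W619.Y.exists_der (k := U) (L := Ω)
    (u := h (algebraMap L Ω (x l))) htr
  have hE : ∀ z : L, D (algebraMap L Ω z) =
      ∑ i, D (algebraMap L Ω (t i)) * algebraMap L Ω (Dt i z) := by
    intro z
    let T : Derivation U L Ω := ∑ i, D (algebraMap L Ω (t i)) •
      ((Algebra.linearMap L Ω).compDer (Dt i))
    have hT : ∀ f, T f = ∑ i, D (algebraMap L Ω (t i)) * algebraMap L Ω (Dt i f) := by
      intro f
      rw [Pool.Agent.W308.PG.YLOC.der_sum_apply]
      rfl
    have h1 := der_adjoin (F := U) (E := L) (N := Ω) htop (D := D.compAlgebraMap L - T) (by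
      rintro _ ⟨j, rfl⟩
      rw [Derivation.sub_apply, hT]
      change D (algebraMap L Ω (t j)) - _ = 0
      rw [Finset.sum_eq_single j]
      · rw [hDt, if_pos rfl, map_one, mul_one, sub_self]
      · intro b _ hb
        rw [hDt, if_neg hb.symm, map_zero, mul_zero]
      · intro hj
        exact absurd (Finset.mem_univ _) hj) z
    rw [Derivation.sub_apply, hT] at h1
    exact sub_eq_zero.1 h1
  have h1 : D.restrictScalars ℂ = ∑ i, D (algebraMap L Ω (t i)) • DΩ i := by
    refine der_eq_of_alg (K := L) hnL fun z => ?_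
    change D (algebraMap L Ω z) = _
    rw [hE, Pool.Agent.W308.PG.YLOC.der_sum_apply]
    refine Finset.sum_congr rfl fun i _ => ?_
    change _ = D (algebraMap L Ω (t i)) * DΩ i (algebraMap L Ω z)
    rw [hDΩ]
    rfl
  have h2 : D.restrictScalars ℂ (h (algebraMap L Ω (x l))) = 0 := by
    rw [h1, Pool.Agent.W308.PG.YLOC.der_sum_apply]
    refine Finset.sum_eq_zero fun i _ => ?_
    change D (algebraMap L Ω (t i)) * DΩ i (h (algebraMap L Ω (x l))) = 0
    rw [hkill, mul_zero]
  change D (h (algebraMap L Ω (x l))) = 0 at h2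
  rw [hD] at h2
  exact one_ne_zero h2

/-- **The conjugates of the functions on the base** are algebraic over the base. -/
theorem conj_alg {U : IntermediateField ℂ L} {k d n m : ℕ} (hn : Algebra.trdeg ℂ K = n)
    {x : Fin d → U} (hx : IsTranscendenceBasis ℂ x) {a : U} (ha : a ≠ 0) (hm : 1 ≤ m) {s : K}
    (hs0 : s ≠ 0) (hs : RegDown K n (fun l => algebraMap L Ω (x l)) (algebraMap L Ω a) m s)
    {t : Fin k → L} (ht : AlgebraicIndependent U t)
    (htop : IntermediateField.adjoin U (Set.range t) = ⊤) (h : Ω ≃ₐ[K] Ω) (u : U) :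
    IsAlgebraic U (h (algebraMap L Ω u)) := by
  have h1 := conj_coord hn hx.1 ha hm hs0 hs ht htop h
  have h2 : Algebra.IsAlgebraic (IntermediateField.adjoin ℂ (Set.range x)) U :=
    hx.isAlgebraic_field
  let φ : U →ₐ[ℂ] Ω := (h.restrictScalars ℂ).toAlgHom.comp
    ((IsScalarTower.toAlgHom ℂ L Ω).comp U.val)
  let A : IntermediateField ℂ Ω := (algebraicClosure U Ω).restrictScalars ℂ
  have h3 : (IntermediateField.adjoin ℂ (Set.range x)).map φ ≤ A := by
    rw [IntermediateField.adjoin_map, IntermediateField.adjoin_le_iff]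
    rintro _ ⟨_, ⟨l, rfl⟩, rfl⟩
    change _ ∈ algebraicClosure U Ω
    rw [mem_algebraicClosure_iff]
    exact h1 l
  have h4 : IsAlgebraic A (φ u) := Pool.Agent.U192.PE.alg_map φ h3 (h2.isAlgebraic u)
  have h5 : IsAlgebraic (algebraicClosure U Ω) (φ u) := h4
  have h6 : Algebra.IsAlgebraic U (algebraicClosure U Ω) := inferInstance
  exact h5.restrictScalars U

/-- **The minimal equations of the functions on the base.** -/
theorem coeff_mem_base [IsGalois K Ω] {U : IntermediateField ℂ L} {k d n m : ℕ}
    (hn : Algebra.trdeg ℂ K = n)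
    {x : Fin d → U} (hx : IsTranscendenceBasis ℂ x) {a : U} (ha : a ≠ 0) (hm : 1 ≤ m) {s : K}
    (hs0 : s ≠ 0) (hs : RegDown K n (fun l => algebraMap L Ω (x l)) (algebraMap L Ω a) m s)
    {t : Fin k → L} (ht : AlgebraicIndependent U t)
    (htop : IntermediateField.adjoin U (Set.range t) = ⊤) (u : U) (i : ℕ) :
    algebraMap K L ((minpoly K (u : L)).coeff i) ∈ U := by
  have hconj := conj_alg (K := K) (Ω := Ω) hn hx ha hm hs0 hs ht htop
  have hint : IsIntegral K (algebraMap L Ω (u : L)) := Algebra.IsIntegral.isIntegral _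
  have hmin : minpoly K (algebraMap L Ω (u : L)) = minpoly K (u : L) :=
    minpoly.algebraMap_eq (algebraMap L Ω).injective (u : L)
  have h1 : ((minpoly K (algebraMap L Ω (u : L))).map (algebraMap K Ω)).Splits :=
    Normal.splits inferInstance _
  have h2 := h1.mem_lift_of_roots_mem_range ((minpoly.monic hint).map _)
    (algebraMap (algebraicClosure U Ω) Ω) (fun z hz => by
      have h3 : Polynomial.aeval z (minpoly K (algebraMap L Ω (u : L))) = 0 := by
        have h4 := (Polynomial.mem_roots'.1 hz).2
        rwa [Polynomial.IsRoot.def, Polynomial.eval_map_algebraMap] at h4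
      obtain ⟨σ, hσ⟩ := minpoly.exists_algEquiv_of_root' hint.isAlgebraic h3
      refine ⟨⟨z, ?_⟩, rfl⟩
      rw [mem_algebraicClosure_iff, ← hσ]
      exact hconj σ u)
  rw [Polynomial.lifts_iff_coeff_lifts] at h2
  obtain ⟨c, hc⟩ := h2 i
  rw [Polynomial.coeff_map, hmin] at hc
  have h3 : IsAlgebraic U (algebraMap K Ω ((minpoly K (u : L)).coeff i)) := by
    rw [← hc]
    exact mem_algebraicClosure_iff.1 c.2
  rw [IsScalarTower.algebraMap_apply K L Ω] at h3
  have h4 : IsAlgebraic U (algebraMap K L ((minpoly K (u : L)).coeff i)) :=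
    (isAlgebraic_algebraMap_iff (algebraMap L Ω).injective).1 h3
  obtain ⟨c', hc'⟩ := closed_rational ht htop h4
  rw [← hc']
  exact c'.2

end

end Pool.Agent.U192.TD
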