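import Pool.Agent.U192.TD.Conj
import Pool.Agent.U192.PE.Iit

/-!
The degrees over the base of the fibration.
-/

set_option autoImplicit false
set_option linter.overlappingInstances false
set_option linter.unusedSectionVars false

open FF Pool.Agent.W602.GT Pool.Agent.W603.LV Pool.Agent.W619.PQ Pool.Agent.Y172

namespace Pool.Agent.U192.TD

open Pool.Agent.U192.NM (dg Lv pol)

section

variable {K0 K U L : Type} [Field K0] [Field K] [Field U] [Field L] [CharZero K0]
  [Algebra K0 K] [Algebra K0 U] [Algebra K0 L] [Algebra K L] [Algebra U L]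
  [IsScalarTower K0 K L] [IsScalarTower K0 U L] [FiniteDimensional K L]
  [Algebra.IsAlgebraic K0 U]

/-- the degrees of the fields generated by finitely many functions on the base -/
theorem deg_set
    (hcoef : ∀ u : U, ∃ p : Polynomial K0,
      p.map (algebraMap K0 K) = minpoly K (algebraMap U L u)) {S : Set U} (hS : S.Finite) :
    Module.finrank K (IntermediateField.adjoin K (algebraMap U L '' S)) =
      Module.finrank K0 (IntermediateField.adjoin K0 S) := by
  classical
  have hfd : FiniteDimensional K0 (IntermediateField.adjoin K0 S) := by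
    have : Finite S := hS
    exact IntermediateField.finiteDimensional_adjoin fun x _ =>
      (Algebra.IsAlgebraic.isAlgebraic (R := K0) x).isIntegral
  obtain ⟨α, hα⟩ := Field.exists_primitive_element K0 (IntermediateField.adjoin K0 S)
  obtain ⟨z, hz⟩ : ∃ z : U, z = (α : U) := ⟨_, rfl⟩
  have hS1 : IntermediateField.adjoin K0 S = IntermediateField.adjoin K0 {z} := by
    have h1 := congrArg (IntermediateField.map (IntermediateField.adjoin K0 S).val) hα
    rw [IntermediateField.adjoin_map, ← AlgHom.fieldRange_eq_map,
      IntermediateField.fieldRange_val, Set.image_singleton] at h1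
    rw [hz]
    exact h1.symm
  have hzint : IsIntegral K0 z := (Algebra.IsAlgebraic.isAlgebraic z).isIntegral
  have hzL : IsIntegral K (algebraMap U L z) := Algebra.IsIntegral.isIntegral _
  let φ : U →ₐ[K0] L := IsScalarTower.toAlgHom K0 U L
  have hS2 : IntermediateField.adjoin K (algebraMap U L '' S) =
      IntermediateField.adjoin K {algebraMap U L z} := by
    apply le_antisymm
    · rw [IntermediateField.adjoin_le_iff]
      rintro _ ⟨s, hs, rfl⟩
      have h1 : s ∈ IntermediateField.adjoin K0 {z} := by
        rw [← hS1]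
        exact IntermediateField.subset_adjoin _ _ hs
      have h2 : φ s ∈ (IntermediateField.adjoin K0 {z}).map φ := ⟨s, h1, rfl⟩
      rw [IntermediateField.adjoin_map, Set.image_singleton] at h2
      have h3 : IntermediateField.adjoin K0 {φ z} ≤
          (IntermediateField.adjoin K {algebraMap U L z}).restrictScalars K0 := by
        rw [IntermediateField.adjoin_le_iff, Set.singleton_subset_iff]
        exact IntermediateField.mem_adjoin_simple_self K (algebraMap U L z)
      exact h3 h2
    · rw [IntermediateField.adjoin_le_iff, Set.singleton_subset_iff]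
      have h1 : z ∈ IntermediateField.adjoin K0 S := by
        rw [hz]
        exact α.2
      have h2 : φ z ∈ (IntermediateField.adjoin K0 S).map φ := ⟨z, h1, rfl⟩
      rw [IntermediateField.adjoin_map] at h2
      have h3 : IntermediateField.adjoin K0 (φ '' S) ≤
          (IntermediateField.adjoin K (algebraMap U L '' S)).restrictScalars K0 := by
        rw [IntermediateField.adjoin_le_iff]
        exact fun w hw => IntermediateField.subset_adjoin K _ hw
      exact h3 h2
  rw [hS2, hS1, IntermediateField.adjoin.finrank hzL, IntermediateField.adjoin.finrank hzint]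
  obtain ⟨p, hp⟩ := hcoef z
  have hpm : p.Monic := by
    have h1 := minpoly.monic hzL
    rw [← hp] at h1
    exact Polynomial.monic_of_injective (algebraMap K0 K).injective h1
  have hpd : p.natDegree = (minpoly K (algebraMap U L z)).natDegree := by
    rw [← hp, Polynomial.natDegree_map]
  have hpz : Polynomial.aeval z p = 0 := by
    have h1 : φ (Polynomial.aeval z p) = 0 := by
      rw [← Polynomial.aeval_algHom_apply]
      have h2 : Polynomial.aeval (φ z) p = Polynomial.aeval (φ z) (p.map (algebraMap K0 K)) :=
        (Polynomial.aeval_map_algebraMap K (φ z) p).symm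
      rw [h2, hp]
      exact minpoly.aeval _ _
    exact (map_eq_zero φ).1 h1
  apply le_antisymm
  · have h1 : minpoly K (algebraMap U L z) ∣ (minpoly K0 z).map (algebraMap K0 K) := by
      refine minpoly.dvd _ _ ?_
      rw [Polynomial.aeval_map_algebraMap]
      have h2 : Polynomial.aeval (φ z) (minpoly K0 z) = φ (Polynomial.aeval z (minpoly K0 z)) :=
        Polynomial.aeval_algHom_apply φ z _
      change Polynomial.aeval (φ z) (minpoly K0 z) = 0
      rw [h2, minpoly.aeval, map_zero]
    have h2 := Polynomial.natDegree_le_of_dvd h1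
      (Polynomial.map_ne_zero (minpoly.ne_zero hzint))
    rwa [Polynomial.natDegree_map] at h2
  · rw [← hpd]
    exact Polynomial.natDegree_le_of_dvd (minpoly.dvd _ _ hpz) hpm.ne_zero

end

section

/-- the relative degrees as quotients -/
theorem dg_mul {L : Type} [Field L] (K : Type) [Field K] [Algebra K L] {κ : ℕ}
    (X : Fin κ → Finset L) (i : Fin κ) :
    Module.finrank K (Lv K X i) * dg K X i =
      Module.finrank K (IntermediateField.adjoin K
        ({z | ∃ i' : Fin κ, i'.val < i.val ∧ z ∈ X i'} ∪ (X i : Set L))) := by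
  unfold dg
  rw [Module.finrank_mul_finrank K (Lv K X i)
    (IntermediateField.adjoin (Lv K X i) (X i : Set L))]
  have h1 := IntermediateField.adjoin_adjoin_left K
    {z | ∃ i' : Fin κ, i'.val < i.val ∧ z ∈ X i'} (X i : Set L)
  rw [← h1]
  rfl

end

section

variable {K0 K L : Type} [Field K0] [Field K] [Field L] [Algebra ℂ L] {U : IntermediateField ℂ L}
  [CharZero K0]
  [Algebra K0 K] [Algebra K0 U] [Algebra K0 L] [Algebra K L]
  [IsScalarTower K0 K L] [IsScalarTower K0 U L] [FiniteDimensional K L]
  [Algebra.IsAlgebraic K0 U]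

/-- **The relative degrees** over the base are the ones over `W`. -/
theorem dg_base
    (hcoef : ∀ u : U, ∃ p : Polynomial K0,
      p.map (algebraMap K0 K) = minpoly K (algebraMap U L u)) {κ : ℕ} (X : Fin κ → Finset U)
    (i : Fin κ) : dg K (Pool.Agent.U192.PB.up U X) i = dg K0 X i := by
  classical
  obtain ⟨S, hS⟩ : ∃ S : Set U, S = {z | ∃ i' : Fin κ, i'.val < i.val ∧ z ∈ X i'} := ⟨_, rfl⟩
  have hSf : S.Finite := by
    rw [hS]
    refine (Set.finite_iUnion fun i' : Fin κ => (X i').finite_toSet).subset ?_
    rintro z ⟨i', -, hz⟩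
    exact Set.mem_iUnion.2 ⟨i', hz⟩
  have h1 : {z | ∃ i' : Fin κ, i'.val < i.val ∧ z ∈ Pool.Agent.U192.PB.up U X i'} =
      algebraMap U L '' S := by
    rw [hS]
    ext z
    constructor
    · rintro ⟨i', hi', hz⟩
      unfold Pool.Agent.U192.PB.up at hz
      rw [Finset.mem_map] at hz
      obtain ⟨u, hu, rfl⟩ := hz
      exact ⟨u, ⟨i', hi', hu⟩, rfl⟩
    · rintro ⟨u, ⟨i', hi', hu⟩, rfl⟩
      refine ⟨i', hi', ?_⟩
      unfold Pool.Agent.U192.PB.up
      rw [Finset.mem_map]
      exact ⟨u, hu, rfl⟩
  have h2 : (Pool.Agent.U192.PB.up U X i : Set L) = algebraMap U L '' (X i : Set U) := by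
    unfold Pool.Agent.U192.PB.up
    rw [Finset.coe_map]
    rfl
  have h3 := dg_mul K (Pool.Agent.U192.PB.up U X) i
  have h4 := dg_mul K0 X i
  unfold Lv at h3 h4
  rw [h1, h2, ← Set.image_union, deg_set hcoef hSf,
    deg_set hcoef (hSf.union (X i).finite_toSet)] at h3
  rw [← hS, ← h3] at h4
  have hfd : FiniteDimensional K0 (IntermediateField.adjoin K0 S) := by
    have : Finite S := hSf
    exact IntermediateField.finiteDimensional_adjoin fun x _ =>
      (Algebra.IsAlgebraic.isAlgebraic (R := K0) x).isIntegral
  exact (Nat.eq_of_mul_eq_mul_left Module.finrank_pos h4).symm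

end

end Pool.Agent.U192.TD
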