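import Pool.Agent.U192.TD.NormFun
import Pool.Agent.U192.PN.Prod

/-!
Pull-backs of pluricanonical forms as tensors: the orders of the values.
-/

set_option autoImplicit false
set_option linter.overlappingInstances false
set_option linter.unusedSectionVars false

open FF Pool.Agent.W602.GT Pool.Agent.W603.LV Pool.Agent.W619.PQ Pool.Agent.Y172

namespace Pool.Agent.U192.TD

open Pool.Agent.U192.PB (ge_det_col det_pluri)

section

variable {F : Type} [Field F]

/-- the determinant of a matrix some of whose columns are unit vectors -/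
theorem det_sub {n d : ℕ} {p : Fin d → Fin n} (hp : Function.Injective p)
    (A : Matrix (Fin n) (Fin n) F)
    (hA : ∀ j, j ∉ Set.range p → ∀ i, A i j = if i = j then 1 else 0) :
    A.det = (Matrix.of fun i l => A (p i) (p l) : Matrix (Fin d) (Fin d) F).det := by
  classical
  rw [Matrix.twoBlockTriangular_det A (fun j => j ∉ Set.range p) (fun i hi j hj => by
    rw [hA j hj, if_neg]
    rintro rfl
    exact hi hj)]
  have h1 : (Matrix.toSquareBlockProp A fun j => j ∉ Set.range p).det = 1 := by
    have h2 : (Matrix.toSquareBlockProp A fun j => j ∉ Set.range p) = 1 := by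
      ext i j
      change A i j = _
      rw [hA j j.2, Matrix.one_apply]
      simp only [Subtype.ext_iff]
    rw [h2, Matrix.det_one]
  rw [h1, one_mul]
  let e : Fin d ≃ {j // ¬ (j ∉ Set.range p)} :=
    Equiv.ofBijective (fun i => ⟨p i, not_not.2 ⟨i, rfl⟩⟩)
      ⟨fun a b hab => hp (congrArg Subtype.val hab), fun j => by
        obtain ⟨i, hi⟩ := not_not.1 j.2
        exact ⟨i, Subtype.ext hi⟩⟩
  rw [← Matrix.det_submatrix_equiv_self e]
  rfl

end

section

variable {k K M : Type} [Field k] [CharZero k] [IsAlgClosed k] [Field K] [Field M]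
  [Algebra k K] [Algebra k M] [Algebra K M]
  [IsScalarTower k K M] [FiniteDimensional K M] [Algebra.EssFiniteType k M]

/-- **A minor of the Jacobian matrix** of some functions with respect to a frame from below. -/
theorem minor_ge {n d : ℕ} (hn : Algebra.trdeg k M = n) {P : Place k K} {Q : Place k M} {e : ℕ}
    (h : Over Q P e) (hQ : Divisorial n Q) {y : Fin n → K} {E : Fin n → Derivation k K K}
    {i0 : Fin n} (hl : Loc P y E i0) {E' : Fin n → Derivation k M M}
    (hE' : ∀ i f, E' i (algebraMap K M f) = algebraMap K M (E i f)) {p : Fin d → Fin n}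
    (hp : Function.Injective p) {x : Fin d → M} {c : Fin d → ℤ}
    (hx : ∀ j, ∀ D : Derivation k M M, DerReg Q D → Ge Q (c j) (D (x j))) :
    Ge Q (∑ j, c j + 1 - e) (Matrix.of fun i l => E' (p i) (x l)).det := by
  classical
  obtain ⟨z, hz1, hz2⟩ : ∃ z : Fin n → M, (∀ l, z (p l) = x l) ∧
      ∀ j, j ∉ Set.range p → z j = algebraMap K M (y j) := by
    refine ⟨fun j => if h : ∃ l, p l = j then x h.choose else algebraMap K M (y j),
      fun l => ?_, fun j hj => ?_⟩
    · have h1 : ∃ l', p l' = p l := ⟨l, rfl⟩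
      beta_reduce
      rw [dif_pos h1]
      congr 1
      exact hp h1.choose_spec
    · beta_reduce
      rw [dif_neg]
      rintro ⟨l, hl⟩
      exact hj ⟨l, hl⟩
  obtain ⟨c', hc1, hc2⟩ : ∃ c' : Fin n → ℤ, (∀ l, c' (p l) = c l) ∧
      ∀ j, j ∉ Set.range p → c' j = 0 := by
    refine ⟨fun j => if h : ∃ l, p l = j then c h.choose else 0, fun l => ?_, fun j hj => ?_⟩
    · have h1 : ∃ l', p l' = p l := ⟨l, rfl⟩
      beta_reduce
      rw [dif_pos h1]
      congr 1
      exact hp h1.choose_spec
    · beta_reduce
      rw [dif_neg]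
      rintro ⟨l, hl⟩
      exact hj ⟨l, hl⟩
  have hsum : ∑ j, c' j = ∑ l, c l := by
    rw [← Finset.sum_subset (Finset.subset_univ (Finset.univ.image p)) (fun j _ hj => hc2 j
      (fun ⟨l, hl⟩ => hj (Finset.mem_image.2 ⟨l, Finset.mem_univ _, hl⟩))),
      Finset.sum_image (fun a _ b _ hab => hp hab)]
    exact Finset.sum_congr rfl fun l _ => hc1 l
  have hW : IsPluri 1 (fun G : Fin n → Derivation k M M =>
      (Matrix.of fun i j => G i (z j)).det ^ 1 * 1) := det_pluri z 1 1
  have hreg : ∀ G : Fin n → Derivation k M M, (∀ i, DerReg Q (G i)) →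
      (Matrix.of fun i j => G i (z j)).det ^ 1 * 1 = 0 ∨ ((∑ l, c l : ℤ) : ℝ) ≤
        Q.ord ((Matrix.of fun i j => G i (z j)).det ^ 1 * 1) := by
    intro G hG
    rw [pow_one, mul_one]
    have h1 := ge_det_col Q (Matrix.of fun i j => G i (z j)) c' (fun i j => by
      rw [Matrix.of_apply]
      by_cases hj : j ∈ Set.range p
      · obtain ⟨l, rfl⟩ := hj
        rw [hz1, hc1]
        exact hx l _ (hG i)
      · rw [hz2 j hj, hc2 j hj]
        exact hG i _ (h.reg.2 (hl.reg j)))
    rw [hsum] at h1
    rcases h1 with h1 | h1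
    · exact Or.inl h1
    · right
      exact_mod_cast h1
  have h1 := down_ge hn h hQ hl hE' hW hreg
  have h2 : (Matrix.of fun i j => E' i (z j)).det =
      (Matrix.of fun i l => E' (p i) (x l)).det := by
    rw [det_sub hp (Matrix.of fun i j => E' i (z j)) (fun j hj i => by
      rw [Matrix.of_apply, hz2 j hj, hE', hl.dual]
      split_ifs <;> simp)]
    congr 1
    ext i l
    rw [Matrix.of_apply, Matrix.of_apply, Matrix.of_apply, hz1]
  simp only [pow_one, mul_one] at h1
  rw [h2] at h1
  rcases h1 with h1 | h1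
  · exact Or.inl h1
  · right
    push_cast at h1
    have h3 : (((∑ j, c j + 1 - e : ℤ)) : ℝ) ≤
        Q.ord (Matrix.of fun i l => E' (p i) (x l)).det := by
      push_cast
      linarith
    exact_mod_cast h3

/-- **The Jacobian determinant** for combinations of the vector fields of a frame. -/
theorem comb_ge {n d : ℕ} (hn : Algebra.trdeg k M = n) {P : Place k K} {Q : Place k M} {e : ℕ}
    (h : Over Q P e) (hQ : Divisorial n Q) {y : Fin n → K} {E : Fin n → Derivation k K K}
    {i0 : Fin n} (hl : Loc P y E i0) {E' : Fin n → Derivation k M M}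
    (hE' : ∀ i f, E' i (algebraMap K M f) = algebraMap K M (E i f)) (C : Fin d → Fin n → k)
    {x : Fin d → M} {c : Fin d → ℤ}
    (hx : ∀ j, ∀ D : Derivation k M M, DerReg Q D → Ge Q (c j) (D (x j))) :
    Ge Q (∑ j, c j + 1 - e)
      (Matrix.of fun i l => ∑ j, algebraMap k M (C i j) * E' j (x l)).det := by
  classical
  have h1 : (Matrix.of fun i l => ∑ j, algebraMap k M (C i j) * E' j (x l)).det =
      ∑ r : Fin d → Fin n, (∏ i, algebraMap k M (C i (r i))) *
        (Matrix.of fun i l => E' (r i) (x l)).det := by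
    have h2 : (Matrix.of fun i l => ∑ j, algebraMap k M (C i j) * E' j (x l)).det =
        Matrix.detRowAlternating (fun i => ∑ j, algebraMap k M (C i j) •
          (fun l => E' j (x l) : Fin d → M)) := by
      change Matrix.det _ = Matrix.det _
      congr 1
      funext i l
      rw [Matrix.of_apply, Finset.sum_apply]
      rfl
    rw [h2]
    change (Matrix.detRowAlternating : (Fin d → M) [⋀^Fin d]→ₗ[M] M).toMultilinearMap _ = _
    rw [MultilinearMap.map_sum]
    refine Finset.sum_congr rfl fun r _ => ?_
    rw [MultilinearMap.map_smul_univ]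
    rfl
  rw [h1]
  refine Ge.sum _ _ fun r _ => ?_
  by_cases hr : Function.Injective r
  · have h2 : Ge Q 0 (∏ i, algebraMap k M (C i (r i))) := by
      have h3 := Ge.prod (P := Q) Finset.univ (fun i => algebraMap k M (C i (r i)))
        (fun _ => 0) fun i _ => Ge.const _
      rwa [Finset.sum_const_zero] at h3
    have h3 := h2.mul (minor_ge hn h hQ hl hE' hr hx)
    rwa [zero_add] at h3
  · left
    obtain ⟨i, j, hij, hne⟩ : ∃ i j, r i = r j ∧ i ≠ j := by
      by_contra hcon
      push Not at hcon
      exact hr fun a b hab => hcon a b hab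
    rw [Matrix.det_zero_of_row_eq hne (by
      funext l
      rw [Matrix.of_apply, Matrix.of_apply, hij]), mul_zero]

end

end Pool.Agent.U192.TD
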