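import Pool.Agent.U192.TD.Deg
import Pool.Agent.U192.PT.Good
import Pool.Agent.N999.SX.FG
import Pool.Agent.Y174.Main1

/-!
The base of the rational quotient of the images of `X × ℙᵏ`.
-/

set_option autoImplicit false
set_option linter.overlappingInstances false
set_option linter.unusedSectionVars false

open FF Pool.Agent.W602.GT Pool.Agent.W603.LV Pool.Agent.W619.PQ Pool.Agent.Y172
open Pool.Agent.Y174 (PairSec PairKod PairNum)

namespace Pool.Agent.U192.TD

open Pool.Agent.U192.NM (dg Lv pol exists_basis_pol)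
open Pool.Agent.U192.PB (up)
open Pool.Agent.U192.PE (adjoin_up mem_Lv)

/-- the orders of the poles of functions on the base -/
theorem pol_img {A B : Type} [Field A] [Field B] [Algebra ℂ A] [Algebra ℂ B] [Algebra A B]
    {X : Finset A} {Y : Finset B} (hXY : ∀ z, z ∈ Y ↔ ∃ u ∈ X, algebraMap A B u = z)
    {Q : Place ℂ B} {P : Place ℂ A} {e : ℕ} (h : Over Q P e) :
    pol Y Q = e * pol X P := by
  unfold pol
  have key : ∀ u : A, (-Q.ord (algebraMap A B u)).toNat = e * (-P.ord u).toNat := by
    intro u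
    rw [h.2 u]
    rcases le_total (P.ord u) 0 with h2 | h2
    · have h3 : (-P.ord u).toNat = -P.ord u := Int.toNat_of_nonneg (by omega)
      have h4 : 0 ≤ -((e : ℤ) * P.ord u) := by
        have := mul_nonpos_of_nonneg_of_nonpos (Int.natCast_nonneg e) h2
        omega
      have h5 := Int.toNat_of_nonneg h4
      have h6 : ((-((e : ℤ) * P.ord u)).toNat : ℤ) = ((e * (-P.ord u).toNat : ℕ) : ℤ) := by
        rw [h5]
        push_cast
        rw [h3]
        ring
      exact_mod_cast h6
    · have h3 : (-P.ord u).toNat = 0 := Int.toNat_of_nonpos (by omega)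
      have h4 : (-((e : ℤ) * P.ord u)).toNat = 0 := by
        apply Int.toNat_of_nonpos
        have := mul_nonneg (Int.natCast_nonneg e) h2
        omega
      rw [h3, h4, mul_zero]
  apply le_antisymm
  · refine Finset.sup_le fun z hz => ?_
    obtain ⟨u, hu, rfl⟩ := (hXY z).1 hz
    rw [key]
    exact Nat.mul_le_mul_left e (Finset.le_sup (f := fun z => (-P.ord z).toNat) hu)
  · rcases X.eq_empty_or_nonempty with rfl | hne
    · simp
    · obtain ⟨u, hu, hmax⟩ := Finset.exists_mem_eq_sup X hne (fun z => (-P.ord z).toNat)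
      rw [hmax, ← key]
      exact Finset.le_sup (f := fun z => (-Q.ord z).toNat) ((hXY _).2 ⟨u, hu, rfl⟩)

section

variable {K L : Type} [Field K] [Field L] [Algebra ℂ K] [Algebra ℂ L]
  [Algebra K L] [IsScalarTower ℂ K L] [FiniteDimensional K L]
  [Algebra.EssFiniteType ℂ K] [Algebra.EssFiniteType ℂ L]

/-- **The tensor.** -/
theorem tensor_reg (Ω : Type) [Field Ω] [Algebra ℂ Ω] [Algebra K Ω] [Algebra L Ω]
    [IsScalarTower ℂ K Ω] [IsScalarTower ℂ L Ω] [IsScalarTower K L Ω] [FiniteDimensional K Ω]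
    [IsGalois K Ω] [Fintype (Ω ≃ₐ[K] Ω)] (U : IntermediateField ℂ L) {κ : ℕ}
    (X : Fin κ → Finset U) (hX : IntermediateField.adjoin ℂ (⋃ i, (X i : Set U)) = ⊤)
    {d n m : ℕ} (hU : Algebra.trdeg ℂ U = d) (hn : Algebra.trdeg ℂ K = n)
    {α : (Fin d → Derivation ℂ U U) → U} (hα : IsPluri m α)
    (hpos : ∀ v : Place ℂ U, Divisorial d v → ∀ G : Fin d → Derivation ℂ U U,
      (∀ i, DerReg v (G i)) → α G = 0 ∨
      ∑ i, 2 * (m : ℤ) * ((dg K (up U X) i : ℤ) - 1) * pol (X i) v ≤ v.ord (α G))
    {x : Fin d → U} {Ex : Fin d → Derivation ℂ U U} (hx : IsTranscendenceBasis ℂ x)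
    (hEx : ∀ i j, Ex i (x j) = if i = j then 1 else 0) :
    ∃ s : K, s ≠ 0 ∧ RegDown K n (fun l => algebraMap L Ω (x l))
      (algebraMap L Ω (α Ex)) m s := by
  classical
  have hcK : CharZero K := charZero_of_injective_algebraMap (algebraMap ℂ K).injective
  have hUe : Algebra.EssFiniteType ℂ U := Pool.Agent.N999.SX.ess_any U
  have hXL := adjoin_up (U := U) hX
  have hXE : ∀ i, ∀ z ∈ up U X i, z ∈ U := by
    intro i z hz
    unfold up at hz
    rw [Finset.mem_map] at hz
    obtain ⟨u, -, rfl⟩ := hz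
    exact u.2
  have hE : ∀ z ∈ U, z ∈ Lv K (up U X) κ := mem_Lv hXL
  obtain ⟨q, f, hf⟩ := exists_basis_pol K hXE hE
  let M := Lv K (up U X) κ
  let iUM : Algebra U M := ({ toFun := fun u => ⟨(u : L), hE u u.2⟩
                              map_one' := rfl
                              map_mul' := fun _ _ => rfl
                              map_zero' := rfl
                              map_add' := fun _ _ => rfl } : U →+* M).toAlgebra
  have t1 : IsScalarTower ℂ U M := IsScalarTower.of_algebraMap_eq fun _ => rfl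
  have t2 : IsScalarTower ℂ M Ω := IsScalarTower.of_algebraMap_eq fun c => by
    change algebraMap ℂ Ω c = algebraMap L Ω (algebraMap ℂ L c)
    rw [← IsScalarTower.algebraMap_apply ℂ L Ω]
  have t3 : IsScalarTower ℂ M L := IsScalarTower.of_algebraMap_eq fun _ => rfl
  have hMe : Algebra.EssFiniteType ℂ M := by
    have h1 : Algebra.EssFiniteType K M := inferInstance
    exact Algebra.EssFiniteType.comp ℂ K M
  obtain ⟨XM, hXM⟩ : ∃ XM : Fin κ → Finset M, ∀ i z, z ∈ XM i ↔
      ∃ u ∈ X i, algebraMap U M u = z :=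
    ⟨fun i => (X i).image (algebraMap U M), fun i z => by rw [Finset.mem_image]⟩
  have hXL' : ∀ i z, z ∈ up U X i ↔ ∃ u ∈ XM i, algebraMap M L u = z := by
    intro i z
    unfold up
    rw [Finset.mem_map]
    constructor
    · rintro ⟨u, hu, rfl⟩
      exact ⟨algebraMap U M u, (hXM i _).2 ⟨u, hu, rfl⟩, rfl⟩
    · rintro ⟨w, hw, rfl⟩
      obtain ⟨u, hu, rfl⟩ := (hXM i _).1 hw
      exact ⟨u, hu, rfl⟩
  refine reg_up (K := K) (U := U) (M := M) Ω hU hn hα
    (wU := fun v => ∑ i, ((dg K (up U X) i : ℤ) - 1) * pol (X i) v)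
    (wM := fun Q => ∑ i, ((dg K (up U X) i : ℤ) - 1) * pol (XM i) Q) (fun Q v e hQ => ?_)
    (fun v hv G hG => ?_) f (fun j => ⟨⟨_, (hf j).1⟩, rfl⟩) (fun j Q => ?_) hx hEx
  · change ∑ i, ((dg K (up U X) i : ℤ) - 1) * (pol (XM i) Q : ℤ) =
      e * ∑ i, ((dg K (up U X) i : ℤ) - 1) * (pol (X i) v : ℤ)
    rw [Finset.mul_sum]
    refine Finset.sum_congr rfl fun i _ => ?_
    rw [pol_img (hXM i) hQ]
    push_cast
    ring
  · rcases hpos v hv G hG with h | h
    · exact Or.inl h
    · right
      refine le_trans (le_of_eq ?_) h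
      rw [Finset.mul_sum]
      refine Finset.sum_congr rfl fun i _ => ?_
      ring
  · obtain ⟨Q', e, hQ'⟩ := exists_above (k := ℂ) (K := M) (L := L) Q
    have h1 := (hf j).2 Q'
    have h2 : Pool.Agent.U192.NM.wt K (up U X) κ Q' =
        e * ∑ i, ((dg K (up U X) i : ℤ) - 1) * (pol (XM i) Q : ℤ) := by
      unfold Pool.Agent.U192.NM.wt
      rw [Finset.mul_sum]
      refine Finset.sum_congr rfl fun i _ => ?_
      rw [if_pos i.2, pol_img (hXL' i) hQ']
      push_cast
      ring
    have h3 : ((f j : M) : L) = algebraMap M L (f j) := rfl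
    rw [h2, h3, ← mul_neg] at h1
    exact (over_ge hQ').1 h1

/-- **The base.** -/
theorem mrc_main (U : IntermediateField ℂ L) {κ k : ℕ}
    (X : Fin κ → Finset U) (hX : IntermediateField.adjoin ℂ (⋃ i, (X i : Set U)) = ⊤)
    {d n m a : ℕ} (hm : 1 ≤ m) (hU : Algebra.trdeg ℂ U = d) (hn : Algebra.trdeg ℂ K = n)
    {t : Fin k → L} (ht : AlgebraicIndependent U t)
    (htop : IntermediateField.adjoin U (Set.range t) = ⊤)
    {α : Fin (a + 1) → (Fin d → Derivation ℂ U U) → U} (hα : ∀ j, IsPluri m (α j))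
    (hpos : ∀ j, ∀ v : Place ℂ U, Divisorial d v → ∀ G : Fin d → Derivation ℂ U U,
      (∀ i, DerReg v (G i)) → α j G = 0 ∨
      ∑ i, 2 * (m : ℤ) * ((dg K (up U X) i : ℤ) - 1) * pol (X i) v ≤ v.ord (α j G))
    {G0 : Fin d → Derivation ℂ U U} (hG0 : α 0 G0 ≠ 0)
    (hind : AlgebraicIndependent ℂ fun j : Fin a => α j.succ G0 / α 0 G0)
    {K0 : IntermediateField ℂ K} (hK0 : ∀ z, z ∈ K0 ↔ algebraMap K L z ∈ U) :
    (∀ z : K, IsAlgebraic K0 z → z ∈ K0) ∧ (∀ u ∈ U, IsAlgebraic K0 u) ∧
      Algebra.trdeg ℂ K0 = d ∧ PairKod ℂ K0 d (fun _ => 0) a := by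
  classical
  have hcK : CharZero K := charZero_of_injective_algebraMap (algebraMap ℂ K).injective
  have hcK0 : CharZero K0 := charZero_of_injective_algebraMap (algebraMap ℂ K0).injective
  have hUe : Algebra.EssFiniteType ℂ U := Pool.Agent.N999.SX.ess_any U
  have hK0e : Algebra.EssFiniteType ℂ K0 := Pool.Agent.N999.SX.ess_any K0
  -- the Galois closure
  let Ω := IntermediateField.normalClosure K L (AlgebraicClosure L)
  have hfin : FiniteDimensional K Ω := inferInstance
  have hnorm : Normal K Ω := inferInstance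
  have hgal : IsGalois K Ω := IsGalois.mk
  let ik : Algebra ℂ Ω := ((algebraMap L Ω).comp (algebraMap ℂ L)).toAlgebra
  have ht2 : IsScalarTower ℂ L Ω := IsScalarTower.of_algebraMap_eq fun _ => rfl
  have ht3 : IsScalarTower ℂ K Ω := IsScalarTower.of_algebraMap_eq fun c => by
    change algebraMap L Ω (algebraMap ℂ L c) = _
    rw [IsScalarTower.algebraMap_apply ℂ K L, ← IsScalarTower.algebraMap_apply K L Ω]
  have hfty : Fintype (Ω ≃ₐ[K] Ω) := Fintype.ofFinite _
  obtain ⟨x, Ex, hx, hEx⟩ := exists_crd hU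
  have ha : α 0 Ex ≠ 0 := by
    intro h0
    apply hG0
    rw [pluri_coord hx hEx (hα 0) G0, h0, mul_zero]
  obtain ⟨s, hs0, hs⟩ := tensor_reg Ω U X hX hU hn (hα 0) (hpos 0) hx hEx
  have hcoef := coeff_mem_base (K := K) (L := L) (Ω := Ω) hn hx ha hm hs0 hs ht htop
  -- the extension
  let iKU : Algebra K0 U := ({ toFun := fun z => ⟨algebraMap K L z, (hK0 z).1 z.2⟩
                               map_one' := Subtype.ext (map_one (algebraMap K L))
                               map_mul' := fun _ _ => Subtype.ext (map_mul (algebraMap K L) _ _)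
                               map_zero' := Subtype.ext (map_zero (algebraMap K L))
                               map_add' := fun _ _ => Subtype.ext
                                 (map_add (algebraMap K L) _ _) } : K0 →+* U).toAlgebra
  have t1 : IsScalarTower ℂ K0 U := IsScalarTower.of_algebraMap_eq fun c => by
    apply Subtype.ext
    change algebraMap ℂ L c = algebraMap K L (algebraMap ℂ K c)
    rw [← IsScalarTower.algebraMap_apply ℂ K L]
  have t2 : IsScalarTower K0 U L := IsScalarTower.of_algebraMap_eq fun _ => rfl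
  have t3 : IsScalarTower K0 K L := IsScalarTower.of_algebraMap_eq fun _ => rfl
  have hcoef' : ∀ u : U, ∃ p : Polynomial K0,
      p.map (algebraMap K0 K) = minpoly K (algebraMap U L u) := by
    intro u
    have h1 : minpoly K (algebraMap U L u) ∈ Polynomial.lifts (algebraMap K0 K) := by
      rw [Polynomial.lifts_iff_coeff_lifts]
      exact fun i => ⟨⟨_, (hK0 _).2 (hcoef u i)⟩, rfl⟩
    exact (Polynomial.mem_lifts _).1 h1
  have halg : Algebra.IsAlgebraic K0 U := by
    refine ⟨fun u => ?_⟩
    obtain ⟨p, hp⟩ := hcoef' u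
    have hint : IsIntegral K (algebraMap U L u) := Algebra.IsIntegral.isIntegral _
    refine ⟨p, ?_, ?_⟩
    · rintro rfl
      rw [Polynomial.map_zero] at hp
      exact minpoly.ne_zero hint hp.symm
    · apply (algebraMap U L).injective
      rw [map_zero, ← Polynomial.aeval_algebraMap_apply, ← Polynomial.aeval_map_algebraMap K, hp]
      exact minpoly.aeval _ _
  have hfd : FiniteDimensional K0 U := by
    have h1 : Algebra.EssFiniteType K0 U := Algebra.EssFiniteType.of_comp ℂ K0 U
    obtain ⟨s, hs⟩ := IntermediateField.fg_top K0 U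
    have h2 : FiniteDimensional K0 (IntermediateField.adjoin K0 (s : Set U)) :=
      IntermediateField.finiteDimensional_adjoin fun x _ => (halg.isAlgebraic x).isIntegral
    rw [hs] at h2
    exact h2.equiv IntermediateField.topEquiv.toLinearEquiv
  have hdg : ∀ i, dg K (up U X) i = dg K0 X i := dg_base hcoef' X
  refine ⟨fun z hz => ?_, fun u hu => ?_, Pool.Agent.Y184.NT.trdeg_below (K := U) hU, ?_⟩
  · rw [hK0]
    have h1 : IsAlgebraic U (algebraMap K L z) := by
      have h2 : IsAlgebraic K0 (algebraMap K L z) := hz.algebraMap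
      exact h2.tower_top U
    obtain ⟨c, hc⟩ := closed_rational ht htop h1
    rw [← hc]
    exact c.2
  · exact (halg.isAlgebraic (⟨u, hu⟩ : U)).algebraMap (A := L)
  · refine Pool.Agent.U192.PT.kod_gen (K := K0) (L := U) ⊤ X hX hm hU hα
      (fun l P Q e hQ hQd hEQ c hc G hG => ?_) (fun l P Q e hQ hQd hEQ => ?_) hG0 hind
    · obtain ⟨z, -, hz1⟩ := Q.surj
      have h1 := hc z IntermediateField.mem_top
      rw [hz1] at h1
      have h2 : c = 1 := by
        have h3 := Int.natAbs_dvd_natAbs.2 h1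
        simpa using h3
      rcases hpos l Q hQd G hG with h3 | h3
      · exact Or.inl h3
      · right
        have h4 : (∑ i, 2 * (m : ℤ) * ((dg K0 X i : ℤ) - 1) * pol (X i) Q : ℤ) ≤
            Q.ord (α l G) := by
          refine le_trans (le_of_eq ?_) h3
          exact Finset.sum_congr rfl fun i _ => by rw [hdg i]
        have h5 : ((∑ i, 2 * (m : ℤ) * ((dg K0 X i : ℤ) - 1) * pol (X i) Q : ℤ) : ℝ) ≤
            Q.ord (α l G) := by exact_mod_cast h4
        rw [h2]
        simp only [Nat.cast_one, sub_self, mul_zero, zero_add, add_zero]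
        exact h5
    · obtain ⟨z, -, hz1⟩ := Q.surj
      have h1 := hEQ z IntermediateField.mem_top
      rw [hz1] at h1
      exact absurd h1 one_ne_zero

end

end Pool.Agent.U192.TD
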