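import Pool.Agent.U192.PE.Norm

/-!
Norms of functions: the order of the norm in terms of the orders at the places above.
-/

set_option autoImplicit false
set_option linter.overlappingInstances false
set_option linter.unusedSectionVars false

open FF Pool.Agent.W602.GT Pool.Agent.W603.LV Pool.Agent.W619.PQ Pool.Agent.Y172

namespace Pool.Agent.U192.TD

open Pool.Agent.U192.NM

section

variable {k K M : Type} [Field k] [CharZero k] [IsAlgClosed k] [Field K] [Field M]
  [Algebra k K] [Algebra k M] [Algebra K M]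
  [IsScalarTower k K M] [FiniteDimensional K M]

/-- **The order of the norm of a function.** The factor `ε` is the discriminant of the basis `f`. -/
theorem norm_fun (Ω : Type) [Field Ω] [Algebra k Ω] [Algebra K Ω] [Algebra M Ω]
    [IsScalarTower k K Ω] [IsScalarTower k M Ω] [IsScalarTower K M Ω] [FiniteDimensional K Ω]
    [IsGalois K Ω] {d : ℕ} (f : Module.Basis (Fin d) K M) : ∃ ε : K, ε ≠ 0 ∧
    ∀ (m : ℕ) (P : Place k K) (z : M), z ≠ 0 →
      (∀ (Q : Place k M) (e : ℕ), Over Q P e → ∀ j,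
        (m : ℤ) * (1 - e) ≤ Q.ord z + 2 * m * Q.ord (f j)) →
      0 ≤ P.ord (Algebra.norm K z * ε ^ m) := by
  classical
  have hcK : CharZero K := charZero_of_injective_algebraMap (algebraMap k K).injective
  have hfM : FiniteDimensional M Ω := FiniteDimensional.right K M Ω
  have : Fintype (Ω ≃ₐ[K] Ω) := Fintype.ofFinite _
  have : Fintype (M →ₐ[K] Ω) := Fintype.ofFinite _
  obtain ⟨c0, hc0, hsum⟩ := sum_fib (K := K) (Ω := Ω) M
  obtain ⟨ε, hε0, hε⟩ := disc_bound (k := k) (Ω := Ω) f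
  refine ⟨ε, hε0, fun m P z hne hz => ?_⟩
  obtain ⟨W, e, g, ζ, hW, hg, hrot⟩ := inertia_rot (M := Ω) P
  have hd0 : 0 < d := by
    have h1 : Module.finrank K M = d := by
      rw [Module.finrank_eq_card_basis f, Fintype.card_fin]
    rw [← h1]
    exact Module.finrank_pos
  -- the numbers for the embeddings of `M`
  have hemb : ∀ τ : M →ₐ[K] Ω, ∃ (c : ℤ) (j0 : Fin d), 0 < c ∧
      (∃ (Q : Place k M) (e' : ℕ), Over Q P e' ∧ (∀ x, W.ord (τ x) = c * Q.ord x) ∧
        (e : ℤ) = c * e') ∧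
      ∀ j, W.ord (τ (f j0)) ≤ W.ord (τ (f j)) := by
    intro τ
    obtain ⟨Q, e', a, hQ, ha, hea, hord⟩ := below_emb τ hW
    have : Nonempty (Fin d) := ⟨⟨0, hd0⟩⟩
    obtain ⟨j0, hj0⟩ := Finite.exists_min fun j => W.ord (τ (f j))
    exact ⟨a, j0, by exact_mod_cast ha, ⟨Q, e', hQ, hord, by rw [hea]; push_cast; rfl⟩, hj0⟩
  choose c j0 hc hQ hj0 using hemb
  have h1 := hε W e g ζ hW.1 hg hrot c (fun τ => W.ord (τ (f (j0 τ))))
    (fun τ => ⟨hc τ, by
      obtain ⟨Q, e', -, h, -⟩ := hQ τ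
      exact ⟨Q, h⟩⟩) hj0
  -- the sum over the automorphisms
  have h2 : ∀ h : Ω ≃ₐ[K] Ω,
      -((m : ℤ) * (e - c (act h (IsScalarTower.toAlgHom K M Ω)) +
      2 * W.ord ((act h (IsScalarTower.toAlgHom K M Ω))
        (f (j0 (act h (IsScalarTower.toAlgHom K M Ω))))))) ≤
      W.ord (h (algebraMap M Ω z)) := by
    intro h
    obtain ⟨τ, hτ⟩ : ∃ τ, τ = act h (IsScalarTower.toAlgHom K M Ω) := ⟨_, rfl⟩
    have hτz : W.ord (h (algebraMap M Ω z)) = W.ord (τ z) := by
      rw [hτ]
      rfl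
    rw [← hτ, hτz]
    obtain ⟨Q, e', hQo, hord, hee⟩ := hQ τ
    have h3 := hz Q e' hQo (j0 τ)
    have h4 := mul_le_mul_of_nonneg_left h3 (hc τ).le
    rw [hord, hord, hee]
    linarith
  have h3 : algebraMap K Ω (Algebra.norm K (algebraMap M Ω z)) =
      ∏ h : Ω ≃ₐ[K] Ω, h (algebraMap M Ω z) := by
    rw [Algebra.norm_eq_prod_automorphisms K (algebraMap M Ω z)]
    refine Finset.prod_congr ?_ fun _ _ => rfl
    ext
    simp
  have hz0' : algebraMap M Ω z ≠ 0 := by
    rw [Ne, map_eq_zero]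
    exact hne
  have h4 : W.ord (algebraMap K Ω (Algebra.norm K (algebraMap M Ω z))) =
      ∑ h : Ω ≃ₐ[K] Ω, W.ord (h (algebraMap M Ω z)) := by
    rw [h3]
    exact Pool.Agent.W619.PQ.ord_prod _ W _ fun h _ => by
      rwa [Ne, EmbeddingLike.map_eq_zero_iff]
  have h6 := hsum fun τ => (e : ℤ) - c τ + 2 * W.ord (τ (f (j0 τ)))
  have h7 : (∑ h : Ω ≃ₐ[K] Ω, ((e : ℤ) - c (act h (IsScalarTower.toAlgHom K M Ω)) +
      2 * W.ord ((act h (IsScalarTower.toAlgHom K M Ω))
        (f (j0 (act h (IsScalarTower.toAlgHom K M Ω)))))) : ℤ) ≤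
      c0 * W.ord (algebraMap K Ω ε) := by
    rw [h6]
    exact mul_le_mul_of_nonneg_left h1 (Int.natCast_nonneg _)
  have h5 : -((m : ℤ) * (c0 * W.ord (algebraMap K Ω ε))) ≤
      W.ord (algebraMap K Ω (Algebra.norm K (algebraMap M Ω z))) := by
    rw [h4]
    refine le_trans ?_ (Finset.sum_le_sum fun h _ => h2 h)
    rw [Finset.sum_neg_distrib, ← Finset.mul_sum]
    have h8 := mul_le_mul_of_nonneg_left h7 (Int.natCast_nonneg m)
    linarith
  -- the degrees
  have hq3 : Module.finrank K M * Module.finrank M Ω = Module.finrank K Ω :=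
    Module.finrank_mul_finrank K M Ω
  have hc0' : c0 = Module.finrank M Ω := by
    have h8 := hsum fun _ => 1
    rw [Finset.sum_const, Finset.sum_const, Finset.card_univ, Finset.card_univ, nsmul_eq_mul,
      nsmul_eq_mul, mul_one, mul_one] at h8
    have h9 : Fintype.card (M →ₐ[K] Ω) = Module.finrank K M := by
      obtain ⟨en⟩ := exists_enum (K := K) (Ω := Ω) M (d := Module.finrank K M) rfl
      rw [← Fintype.card_congr en, Fintype.card_fin]
    have h10 : Fintype.card (Ω ≃ₐ[K] Ω) = Module.finrank K Ω := by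
      rw [← Nat.card_eq_fintype_card, IsGalois.card_aut_eq_finrank]
    rw [h9, h10] at h8
    have h11 : Module.finrank K Ω = c0 * Module.finrank K M := by exact_mod_cast h8
    have h12 : 0 < Module.finrank K M := Module.finrank_pos
    rw [← hq3, mul_comm] at h11
    exact (Nat.eq_of_mul_eq_mul_right h12 h11).symm
  have hnorm : Algebra.norm K (algebraMap M Ω z) =
      Algebra.norm K z ^ Module.finrank M Ω := by
    rw [← Algebra.norm_norm (R := K) (S := M) (A := Ω), Algebra.norm_algebraMap, map_pow]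
  have hNL0 : Algebra.norm K z ≠ 0 := by
    rwa [Ne, Algebra.norm_eq_zero_iff]
  rw [hW.2, hW.2, hnorm, hc0', P.ord_pow] at h5
  rw [P.ord_mul hNL0 (pow_ne_zero _ hε0), P.ord_pow]
  have he : (0 : ℤ) < e := by exact_mod_cast hW.1
  have hq : (0 : ℤ) < Module.finrank M Ω := by exact_mod_cast Module.finrank_pos
  have h8 : 0 ≤ ((Module.finrank M Ω : ℤ) * e) *
      (P.ord (Algebra.norm K z) + (m : ℤ) * P.ord ε) := by
    linarith
  exact nonneg_of_mul_nonneg_right h8 (mul_pos hq he)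

end

end Pool.Agent.U192.TD
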