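import Pool.Agent.U192.TD.Tens
import Pool.Agent.U192.PT.Alg

/-!
The norm of the pull-back of a pluricanonical form, as a function of vector fields.
-/

set_option autoImplicit false
set_option linter.overlappingInstances false
set_option linter.unusedSectionVars false

open FF Pool.Agent.W602.GT Pool.Agent.W603.LV Pool.Agent.W619.PQ Pool.Agent.Y172

namespace Pool.Agent.U192.TD

section

variable {Ω : Type} [Field Ω] [Algebra ℂ Ω]

/-- the coefficients of a polynomial are combinations of its values at complex points -/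
theorem coeff_mem {ι : Type} (V : Submodule ℂ Ω) (p : MvPolynomial ι Ω)
    (h : ∀ c : ι → ℂ, MvPolynomial.eval (fun i => algebraMap ℂ Ω (c i)) p ∈ V) (s : ι →₀ ℕ) :
    p.coeff s ∈ V := by
  classical
  by_contra hcon
  obtain ⟨φ, hφ, hV⟩ := Submodule.exists_dual_map_eq_bot_of_notMem hcon inferInstance
  have hφV : ∀ v ∈ V, φ v = 0 := by
    intro v hv
    have h1 : φ v ∈ V.map φ := ⟨v, hv, rfl⟩
    rw [hV] at h1
    exact h1
  obtain ⟨q, hq⟩ : ∃ q : MvPolynomial ι ℂ, q =
    ∑ s ∈ p.support, MvPolynomial.monomial s (φ (p.coeff s)) := ⟨_, rfl⟩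
  have h1 : ∀ c : ι → ℂ, MvPolynomial.eval c q = 0 := by
    intro c
    rw [← hφV _ (h c), hq, map_sum, MvPolynomial.eval_eq, map_sum]
    refine Finset.sum_congr rfl fun t _ => ?_
    rw [MvPolynomial.eval_monomial]
    have h2 : (p.coeff t * ∏ i ∈ t.support, algebraMap ℂ Ω (c i) ^ t i) =
        (∏ i ∈ t.support, c i ^ t i) • p.coeff t := by
      rw [Algebra.smul_def, mul_comm, map_prod]
      congr 1
      exact Finset.prod_congr rfl fun i _ => by rw [map_pow]
    rw [h2, map_smul, smul_eq_mul, mul_comm]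
    rfl
  have h2 : q = 0 := MvPolynomial.funext fun c => by rw [h1, map_zero]
  apply hφ
  have h3 : q.coeff s = φ (p.coeff s) := by
    rw [hq, MvPolynomial.coeff_sum]
    simp only [MvPolynomial.coeff_monomial]
    rw [Finset.sum_ite_eq']
    split_ifs with hs
    · rfl
    · rw [MvPolynomial.notMem_support_iff.1 hs, map_zero]
  rw [← h3, h2, MvPolynomial.coeff_zero]

/-- the same for one variable -/
theorem coeff_mem' (V : Submodule ℂ Ω) (p : Polynomial Ω)
    (h : ∀ c : ℂ, p.eval (algebraMap ℂ Ω c) ∈ V) (s : ℕ) : p.coeff s ∈ V := by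
  classical
  by_contra hcon
  obtain ⟨φ, hφ, hV⟩ := Submodule.exists_dual_map_eq_bot_of_notMem hcon inferInstance
  have hφV : ∀ v ∈ V, φ v = 0 := by
    intro v hv
    have h1 : φ v ∈ V.map φ := ⟨v, hv, rfl⟩
    rw [hV] at h1
    exact h1
  obtain ⟨q, hq⟩ : ∃ q : Polynomial ℂ, q =
    ∑ s ∈ p.support, Polynomial.monomial s (φ (p.coeff s)) := ⟨_, rfl⟩
  have h1 : ∀ c : ℂ, q.eval c = 0 := by
    intro c
    rw [← hφV _ (h c), hq, Polynomial.eval_finsetSum, Polynomial.eval_eq_sum, Polynomial.sum,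
      map_sum]
    refine Finset.sum_congr rfl fun t _ => ?_
    rw [Polynomial.eval_monomial]
    have h2 : p.coeff t * algebraMap ℂ Ω c ^ t = (c ^ t) • p.coeff t := by
      rw [Algebra.smul_def, mul_comm, map_pow]
    rw [h2, map_smul, smul_eq_mul, mul_comm]
  have h2 : q = 0 := Polynomial.funext fun c => by rw [h1, Polynomial.eval_zero]
  apply hφ
  have h3 : q.coeff s = φ (p.coeff s) := by
    rw [hq, Polynomial.finsetSum_coeff]
    simp only [Polynomial.coeff_monomial]
    rw [Finset.sum_ite_eq']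
    split_ifs with hs
    · rfl
    · rw [Polynomial.notMem_support_iff.1 hs, map_zero]
  rw [← h3, h2, Polynomial.coeff_zero]

end

section

variable (K : Type) {Ω : Type} [Field K] [Field Ω] [Algebra ℂ K] [Algebra ℂ Ω] [Algebra K Ω]
  [IsScalarTower ℂ K Ω] [Fintype (Ω ≃ₐ[K] Ω)]

/-- the norm of the tensor `a (dx) ^ m` as a function of vector fields -/
noncomputable def TT {d : ℕ} (x : Fin d → Ω) (a : Ω) (m : ℕ)
    (D : Fin d → Derivation ℂ Ω Ω) : Ω :=
  ∏ h : Ω ≃ₐ[K] Ω, ((Matrix.of fun i l => D i (h (x l))).det ^ m * h a)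

/-- the same in the coordinates given by a frame -/
noncomputable def FP {d n : ℕ} (x : Fin d → Ω) (a : Ω) (m : ℕ)
    (B : Fin n → Derivation ℂ Ω Ω) : MvPolynomial (Fin d × Fin n) Ω :=
  ∏ h : Ω ≃ₐ[K] Ω, ((Matrix.of fun i l => ∑ j, MvPolynomial.X (i, j) *
    MvPolynomial.C (B j (h (x l)))).det ^ m * MvPolynomial.C (h a))

theorem eval_FP {d n : ℕ} (x : Fin d → Ω) (a : Ω) (m : ℕ) (B : Fin n → Derivation ℂ Ω Ω)
    (g : Fin d × Fin n → Ω) :
    MvPolynomial.eval g (FP K x a m B) = TT K x a m fun i => ∑ j, g (i, j) • B j := by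
  unfold FP TT
  rw [map_prod]
  refine Finset.prod_congr rfl fun h _ => ?_
  rw [map_mul, map_pow, MvPolynomial.eval_C, RingHom.map_det]
  congr 3
  ext i l
  rw [RingHom.mapMatrix_apply, Matrix.map_apply, Matrix.of_apply, Matrix.of_apply, map_sum,
    Pool.Agent.W308.PG.YLOC.der_sum_apply]
  refine Finset.sum_congr rfl fun j _ => ?_
  rw [map_mul, MvPolynomial.eval_X, MvPolynomial.eval_C]
  rfl

variable {K}

/-- the lifts of derivations commute with the automorphisms -/
theorem comm_aut [Algebra.IsAlgebraic K Ω] {n : ℕ} (hn : Algebra.trdeg ℂ K = n)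
    {D : Derivation ℂ K K} {D' : Derivation ℂ Ω Ω}
    (hD' : ∀ z, D' (algebraMap K Ω z) = algebraMap K Ω (D z)) (h : Ω ≃ₐ[K] Ω) (w : Ω) :
    D' (h w) = h (D' w) := by
  obtain ⟨D0, h1, h2, h3⟩ := Pool.Agent.W357.PG.main.{0, 0} ℂ K Ω n hn D
  have h4 : D' = D0 := h2 D' hD'
  rw [h4]
  exact (h3 (h.restrictScalars ℂ) (fun f => h.commutes f) w).symm

end

section

variable {K M Ω : Type} [Field K] [Field M] [Field Ω] [Algebra ℂ K] [Algebra ℂ M] [Algebra ℂ Ω]
  [Algebra K M] [Algebra K Ω] [Algebra M Ω] [IsScalarTower ℂ K M] [IsScalarTower ℂ K Ω]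
  [IsScalarTower ℂ M Ω] [IsScalarTower K M Ω] [FiniteDimensional K M] [FiniteDimensional K Ω]
  [IsGalois K Ω] [Fintype (Ω ≃ₐ[K] Ω)]

/-- **The value on the vector fields from below** is a norm. -/
theorem TT_below {n d m : ℕ} (hn : Algebra.trdeg ℂ K = n) {x : Fin d → M} {a : M}
    {D : Fin d → Derivation ℂ K K} {DM : Fin d → Derivation ℂ M M}
    {DΩ : Fin d → Derivation ℂ Ω Ω}
    (hM : ∀ i z, DM i (algebraMap K M z) = algebraMap K M (D i z))
    (hΩ : ∀ i z, DΩ i (algebraMap M Ω z) = algebraMap M Ω (DM i z)) :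
    TT K (fun l => algebraMap M Ω (x l)) (algebraMap M Ω a) m DΩ =
      algebraMap K Ω (Algebra.norm K ((Matrix.of fun i l => DM i (x l)).det ^ m * a) ^
        Module.finrank M Ω) := by
  classical
  have hfM : FiniteDimensional M Ω := FiniteDimensional.right K M Ω
  have hK : ∀ i z, DΩ i (algebraMap K Ω z) = algebraMap K Ω (D i z) := by
    intro i z
    rw [IsScalarTower.algebraMap_apply K M Ω, hΩ, hM, ← IsScalarTower.algebraMap_apply K M Ω]
  have h1 : Algebra.norm K ((Matrix.of fun i l => DM i (x l)).det ^ m * a) ^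
      Module.finrank M Ω =
      Algebra.norm K (algebraMap M Ω ((Matrix.of fun i l => DM i (x l)).det ^ m * a)) := by
    rw [← Algebra.norm_norm (R := K) (S := M) (A := Ω), Algebra.norm_algebraMap, map_pow]
  rw [h1, Algebra.norm_eq_prod_automorphisms K]
  unfold TT
  refine Finset.prod_congr (by ext; simp) fun h _ => ?_
  rw [map_mul, map_pow, map_mul, map_pow, RingHom.map_det]
  have h2 : h ((algebraMap M Ω).mapMatrix (Matrix.of fun i l => DM i (x l))).det =
      (Matrix.of fun i l => DΩ i (h (algebraMap M Ω (x l)))).det := by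
    have h3 := AlgEquiv.map_det h ((algebraMap M Ω).mapMatrix (Matrix.of fun i l => DM i (x l)))
    rw [h3]
    congr 1
    ext i l
    change h (algebraMap M Ω (DM i (x l))) = DΩ i (h (algebraMap M Ω (x l)))
    rw [comm_aut hn (hK i), hΩ]
  rw [h2]

end

end Pool.Agent.U192.TD
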