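import Pool.Agent.U192.TD.Poly

/-!
The norm of the pull-back of a pluricanonical form is a regular tensor.
-/

set_option autoImplicit false
set_option linter.overlappingInstances false
set_option linter.unusedSectionVars false

open FF Pool.Agent.W602.GT Pool.Agent.W603.LV Pool.Agent.W619.PQ Pool.Agent.Y172

namespace Pool.Agent.U192.TD

open Pool.Agent.U192.PT (der_eq_of_alg)

section

variable (K : Type) {Ω : Type} [Field K] [Field Ω] [Algebra ℂ K] [Algebra ℂ Ω] [Algebra K Ω]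
  [IsScalarTower ℂ K Ω] [Fintype (Ω ≃ₐ[K] Ω)]

/-- `s` times the norm of the tensor is regular downstairs -/
def RegDown (n : ℕ) {d : ℕ} (x : Fin d → Ω) (a : Ω) (m : ℕ) (s : K) : Prop :=
  ∀ P : Place ℂ K, Divisorial n P → ∀ (y : Fin n → K) (E : Fin n → Derivation ℂ K K)
    (i0 : Fin n), Loc P y E i0 → ∀ EΩ : Fin n → Derivation ℂ Ω Ω,
    (∀ i z, EΩ i (algebraMap K Ω z) = algebraMap K Ω (E i z)) → ∀ C : Fin d → Fin n → ℂ,
    ∃ w : K, Ge P 0 w ∧ algebraMap K Ω w = algebraMap K Ω s *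
      TT K x a m (fun i => ∑ j, algebraMap ℂ Ω (C i j) • EΩ j)

end

section

variable {K U M : Type} [Field K] [Field U] [Field M] [Algebra ℂ K] [Algebra ℂ U] [Algebra ℂ M]
  [Algebra K M] [Algebra U M] [IsScalarTower ℂ K M] [IsScalarTower ℂ U M]
  [FiniteDimensional K M] [Algebra.EssFiniteType ℂ U] [Algebra.EssFiniteType ℂ M]

/-- **The norm of the pull-back of a form is regular downstairs.** -/
theorem reg_up (Ω : Type) [Field Ω] [Algebra ℂ Ω] [Algebra K Ω] [Algebra M Ω]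
    [IsScalarTower ℂ K Ω] [IsScalarTower ℂ M Ω] [IsScalarTower K M Ω] [FiniteDimensional K Ω]
    [IsGalois K Ω] [Fintype (Ω ≃ₐ[K] Ω)]
    {d n m q : ℕ} (hU : Algebra.trdeg ℂ U = d) (hn : Algebra.trdeg ℂ K = n)
    {α : (Fin d → Derivation ℂ U U) → U} (hα : IsPluri m α) {wU : Place ℂ U → ℤ}
    {wM : Place ℂ M → ℤ}
    (hw : ∀ (Q : Place ℂ M) (v : Place ℂ U) (e : ℕ), Over Q v e → wM Q = e * wU v)
    (hpos : ∀ v : Place ℂ U, Divisorial d v → ∀ G : Fin d → Derivation ℂ U U,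
      (∀ i, DerReg v (G i)) → α G = 0 ∨ 2 * m * wU v ≤ v.ord (α G))
    (f : Module.Basis (Fin q) K M) (hfU : ∀ j, ∃ g : U, algebraMap U M g = f j)
    (hf : ∀ j (Q : Place ℂ M), Ge Q (-(wM Q)) (f j))
    {x : Fin d → U} {Ex : Fin d → Derivation ℂ U U} (hx : IsTranscendenceBasis ℂ x)
    (hEx : ∀ i j, Ex i (x j) = if i = j then 1 else 0) :
    ∃ s : K, s ≠ 0 ∧ RegDown K n (fun l => algebraMap M Ω (algebraMap U M (x l)))
      (algebraMap M Ω (algebraMap U M (α Ex))) m s := by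
  classical
  obtain ⟨ε, hε0, hε⟩ := norm_fun (k := ℂ) Ω f
  refine ⟨ε ^ (m * Module.finrank M Ω), pow_ne_zero _ hε0, ?_⟩
  intro P hP y E i0 hl EΩ hEΩ C
  have hnM : Algebra.trdeg ℂ M = n := Pool.Agent.Y172.trdeg_up hn
  have hfMΩ : FiniteDimensional M Ω := FiniteDimensional.right K M Ω
  choose E' hE' using fun i => exists_lift (L := M) hn (E i)
  have hEM : ∀ i z, EΩ i (algebraMap M Ω z) = algebraMap M Ω (E' i z) := by
    intro i z
    obtain ⟨E'', hE''⟩ := exists_lift (L := Ω) hnM (E' i)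
    have h1 : EΩ i = E'' := der_eq_of_alg (K := K) hn (fun z => by
      rw [hEΩ, IsScalarTower.algebraMap_apply K M Ω z, hE'', hE',
        ← IsScalarTower.algebraMap_apply K M Ω])
    rw [h1, hE'']
  obtain ⟨D, hD⟩ : ∃ D : Fin d → Derivation ℂ K K, ∀ i, D i =
    ∑ j, algebraMap ℂ K (C i j) • E j := ⟨_, fun _ => rfl⟩
  obtain ⟨DM, hDM⟩ : ∃ D : Fin d → Derivation ℂ M M, ∀ i, D i =
    ∑ j, algebraMap ℂ M (C i j) • E' j := ⟨_, fun _ => rfl⟩
  obtain ⟨DΩ, hDΩ⟩ : ∃ D : Fin d → Derivation ℂ Ω Ω, ∀ i, D i =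
    ∑ j, algebraMap ℂ Ω (C i j) • EΩ j := ⟨_, fun _ => rfl⟩
  have hM : ∀ i z, DM i (algebraMap K M z) = algebraMap K M (D i z) := by
    intro i z
    rw [hDM, hD, Pool.Agent.W308.PG.YLOC.der_sum_apply, Pool.Agent.W308.PG.YLOC.der_sum_apply,
      map_sum]
    refine Finset.sum_congr rfl fun j _ => ?_
    change algebraMap ℂ M (C i j) * E' j (algebraMap K M z) =
      algebraMap K M (algebraMap ℂ K (C i j) * E j z)
    rw [hE', map_mul, ← IsScalarTower.algebraMap_apply ℂ K M]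
  have hΩ : ∀ i z, DΩ i (algebraMap M Ω z) = algebraMap M Ω (DM i z) := by
    intro i z
    rw [hDM, hDΩ, Pool.Agent.W308.PG.YLOC.der_sum_apply, Pool.Agent.W308.PG.YLOC.der_sum_apply,
      map_sum]
    refine Finset.sum_congr rfl fun j _ => ?_
    change algebraMap ℂ Ω (C i j) * EΩ j (algebraMap M Ω z) =
      algebraMap M Ω (algebraMap ℂ M (C i j) * E' j z)
    rw [hEM, map_mul, ← IsScalarTower.algebraMap_apply ℂ M Ω]
  have hTT := TT_below (m := m) hn (x := fun l => algebraMap U M (x l))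
    (a := algebraMap U M (α Ex)) hM hΩ
  have hDΩ' : (fun i => ∑ j, algebraMap ℂ Ω (C i j) • EΩ j) = DΩ := by
    funext i
    rw [hDΩ]
  rw [hDΩ', hTT]
  obtain ⟨z, hz⟩ : ∃ z, z = (Matrix.of fun i l => DM i (algebraMap U M (x l))).det ^ m *
      algebraMap U M (α Ex) := ⟨_, rfl⟩
  have hz' : z = (Matrix.of fun i l => ∑ j, algebraMap ℂ M (C i j) *
      E' j (algebraMap U M (x l))).det ^ m * algebraMap U M (α Ex) := by
    rw [hz]
    congr 3
    ext i l
    rw [Matrix.of_apply, Matrix.of_apply, hDM, Pool.Agent.W308.PG.YLOC.der_sum_apply]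
    rfl
  rw [← hz]
  refine ⟨(Algebra.norm K z * ε ^ m) ^ Module.finrank M Ω, ?_, ?_⟩
  · have h1 : Ge P 0 (Algebra.norm K z * ε ^ m) := by
      by_cases hz0 : z = 0
      · left
        rw [hz0, Algebra.norm_zero, zero_mul]
      · right
        exact hε m P z hz0 fun Q e hQ j => tens_bound hU hnM hα hw hpos (fun j => f.ne_zero j)
          hfU hf hx hEx hP hl hE' C hz' hz0 Q e hQ j
    have h2 := h1.pow (Module.finrank M Ω)
    rwa [mul_zero] at h2
  · rw [mul_pow, ← pow_mul, map_mul, mul_comm]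

end

section

variable {K L Ω : Type} [Field K] [Field L] [Field Ω] [Algebra ℂ K] [Algebra ℂ L] [Algebra ℂ Ω]
  [Algebra K L] [Algebra K Ω] [Algebra L Ω] [IsScalarTower ℂ K L] [IsScalarTower ℂ K Ω]
  [IsScalarTower ℂ L Ω] [IsScalarTower K L Ω] [FiniteDimensional K L] [FiniteDimensional K Ω]
  [Fintype (Ω ≃ₐ[K] Ω)] [Algebra.EssFiniteType ℂ K]

/-- the functions upstairs which are regular at a place of `L` -/
def RR (Ω : Type) [Field Ω] [Algebra ℂ Ω] [Algebra L Ω] [IsScalarTower ℂ L Ω] (Q : Place ℂ L) :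
    Subalgebra ℂ Ω where
  carrier := {v | ∃ w : L, Ge Q 0 w ∧ algebraMap L Ω w = v}
  mul_mem' := by
    rintro _ _ ⟨w, hw, rfl⟩ ⟨w', hw', rfl⟩
    refine ⟨w * w', ?_, map_mul _ _ _⟩
    have h1 := hw.mul hw'
    rwa [zero_add] at h1
  add_mem' := by
    rintro _ _ ⟨w, hw, rfl⟩ ⟨w', hw', rfl⟩
    exact ⟨w + w', hw.add hw', map_add _ _ _⟩
  algebraMap_mem' := fun c => ⟨algebraMap ℂ L c, Ge.const c, by
    rw [← IsScalarTower.algebraMap_apply ℂ L Ω]⟩

/-- **The norm of the pull-back of a form is regular upstairs.** -/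
theorem reg_L {n d m : ℕ} (hn : Algebra.trdeg ℂ K = n) {x : Fin d → Ω} {a : Ω} {s : K}
    (hs : RegDown K n x a m s) {Q : Place ℂ L} (hQ : Divisorial n Q)
    {G : Fin d → Derivation ℂ L L} (hG : ∀ i, DerReg Q (G i))
    {GΩ : Fin d → Derivation ℂ Ω Ω}
    (hGΩ : ∀ i z, GΩ i (algebraMap L Ω z) = algebraMap L Ω (G i z)) :
    algebraMap K Ω s * TT K x a m GΩ ∈ RR Ω Q := by
  classical
  obtain ⟨P, e, hP⟩ := exists_below (k := ℂ) (K := K) Q
  have hPd : Divisorial n P := divisorial_down hP hQ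
  obtain ⟨y, E, i0, hl⟩ := exists_loc hn hPd
  choose EΩ hEΩ using fun i => exists_lift (L := Ω) hn (E i)
  obtain ⟨p, hp⟩ : ∃ p : MvPolynomial (Fin d × Fin n) Ω, p =
    MvPolynomial.C (algebraMap K Ω s) * FP K x a m EΩ := ⟨_, rfl⟩
  have hcoef : ∀ t, p.coeff t ∈ RR Ω Q := by
    intro t
    refine coeff_mem (Subalgebra.toSubmodule (RR Ω Q)) p (fun c => ?_) t
    obtain ⟨w, hw, hwv⟩ := hs P hPd y E i0 hl EΩ hEΩ (fun i j => c (i, j))
    refine ⟨algebraMap K L w, (over_ge hP (c := 0)).2 hw |>.mono (by simp), ?_⟩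
    rw [← IsScalarTower.algebraMap_apply K L Ω, hwv, hp, map_mul, MvPolynomial.eval_C, eval_FP]
  have hyΩ : IsTranscendenceBasis ℂ (fun j => algebraMap K Ω (y j)) := hl.bas.algebraMap_comp
  have hdual := lift_dual hl.dual hEΩ
  have hexp : GΩ = fun i => ∑ j, GΩ i (algebraMap K Ω (y j)) • EΩ j := by
    funext i
    exact Pool.Agent.W308.PG.YLOC.expandK (k := ℂ) (K := Ω) _ EΩ hyΩ hdual (GΩ i)
  have h1 : algebraMap K Ω s * TT K x a m GΩ =
      MvPolynomial.eval (fun ij => GΩ ij.1 (algebraMap K Ω (y ij.2))) p := by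
    rw [hp, map_mul, MvPolynomial.eval_C, eval_FP]
    conv_lhs => rw [hexp]
  rw [h1]
  have h2 : MvPolynomial.eval (fun ij => GΩ ij.1 (algebraMap K Ω (y ij.2))) p =
      MvPolynomial.eval₂ (RingHom.id Ω) (fun ij => GΩ ij.1 (algebraMap K Ω (y ij.2))) p := rfl
  rw [h2]
  refine MvPolynomial.eval₂_mem (fun t _ => hcoef t) fun ij => ?_
  refine ⟨G ij.1 (algebraMap K L (y ij.2)), hG _ _ (hP.reg.2 (hl.reg _)), ?_⟩
  rw [← hGΩ, ← IsScalarTower.algebraMap_apply K L Ω]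

end

end Pool.Agent.U192.TD
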