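import Pool.Agent.U192.TD.Reg
import Pool.Agent.R882.UA

/-!
The conjugates of the functions on the base are constant along the rulings.
-/

set_option autoImplicit false
set_option linter.overlappingInstances false
set_option linter.unusedSectionVars false

open FF Pool.Agent.W602.GT Pool.Agent.W603.LV Pool.Agent.W619.PQ Pool.Agent.Y172

namespace Pool.Agent.U192.TD

open Pool.Agent.U192.PT (der_eq_of_alg)

section

variable {k L : Type} [Field k] [CharZero k] [Field L] [Algebra k L]

theorem derReg_smul {Q : Place k L} {D : Derivation k L L} (hD : DerReg Q D) {c : L}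
    (hc : Ge Q 0 c) : DerReg Q (c • D) := by
  intro f hf
  have h1 := hc.mul (hD f hf : Ge Q 0 (D f))
  rw [zero_add] at h1
  exact h1

theorem derReg_sum {ι : Type} {Q : Place k L} (s : Finset ι) {D : ι → Derivation k L L}
    (hD : ∀ i ∈ s, DerReg Q (D i)) : DerReg Q (∑ i ∈ s, D i) := by
  intro f hf
  rw [Pool.Agent.W308.PG.YLOC.der_sum_apply]
  exact Ge.sum _ _ fun i hi => hD i hi f hf

end

section

variable {K L Ω : Type} [Field K] [Field L] [Field Ω] [Algebra ℂ K] [Algebra ℂ L] [Algebra ℂ Ω]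
  [Algebra K L] [Algebra K Ω] [Algebra L Ω] [IsScalarTower ℂ K L] [IsScalarTower ℂ K Ω]
  [IsScalarTower ℂ L Ω] [IsScalarTower K L Ω] [FiniteDimensional K L] [FiniteDimensional K Ω]
  [Fintype (Ω ≃ₐ[K] Ω)] [Algebra.EssFiniteType ℂ K]

/-- the derivation along the ruling is determined -/
theorem ruling_unique {M1 : IntermediateField ℂ L} {t : L} (ht : Transcendental M1 t)
    (htop : IntermediateField.adjoin M1 {t} = ⊤) {D E : Derivation ℂ L L} (hDt : D t = 1)
    (hEt : E t = 1) (hDM : ∀ μ : M1, D (μ : L) = 0) (hEM : ∀ μ : M1, E (μ : L) = 0) : D = E := by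
  have h1 : ∀ f : L, (D - E) f = 0 := by
    intro f
    obtain ⟨-, -, -, hfr⟩ := Pool.Agent.W721.PG.RULED.places (k := ℂ) ht htop
    have hp : ∀ p : Polynomial M1, (D - E) (Polynomial.aeval t p) = 0 := by
      intro p
      induction p using Polynomial.induction_on' with
      | add p q hp hq => rw [map_add, map_add, hp, hq, add_zero]
      | monomial n a =>
        rw [Polynomial.aeval_monomial, Derivation.leibniz, Derivation.leibniz_pow]
        have h2 : (D - E) t = 0 := by
          change D t - E t = 0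
          rw [hDt, hEt, sub_self]
        have h3 : (D - E) (algebraMap M1 L a) = 0 := by
          change D (a : L) - E (a : L) = 0
          rw [hDM, hEM, sub_self]
        rw [h2, h3]
        simp
    obtain ⟨p, q, hq, hpq⟩ := hfr f
    have hq0 : Polynomial.aeval t q ≠ 0 := by
      intro h
      exact hq ((transcendental_iff_injective.1 ht) (by rw [h, map_zero]))
    have h2 := congrArg (D - E) hpq
    rw [Derivation.leibniz, hp, hp, smul_zero, zero_add, smul_eq_mul] at h2
    exact (mul_eq_zero.1 h2).resolve_left hq0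
  ext f
  exact sub_eq_zero.1 (h1 f)

/-- the norm does not vanish on a general combination of the vector fields of a frame -/
theorem exists_general {n d m : ℕ} {x : Fin d → Ω} (hx : AlgebraicIndependent ℂ x) {a : Ω}
    (ha : a ≠ 0) {y : Fin n → Ω} (hy : IsTranscendenceBasis ℂ y)
    {B : Fin n → Derivation ℂ Ω Ω} (hB : ∀ i j, B i (y j) = if i = j then 1 else 0) :
    ∃ C : Fin d × Fin n → ℂ,
      TT K x a m (fun i => ∑ j, algebraMap ℂ Ω (C (i, j)) • B j) ≠ 0 := by
  classical
  by_contra hcon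
  push Not at hcon
  have h0 : FP K x a m B = 0 := by
    ext s
    have h1 := coeff_mem (⊥ : Submodule ℂ Ω) (FP K x a m B) (fun c => by
      rw [Submodule.mem_bot, eval_FP]
      exact hcon c) s
    rw [Submodule.mem_bot] at h1
    rw [h1, MvPolynomial.coeff_zero]
  unfold FP at h0
  rw [Finset.prod_eq_zero_iff] at h0
  obtain ⟨h, -, h0⟩ := h0
  have h1 : (MvPolynomial.C (h a) : MvPolynomial (Fin d × Fin n) Ω) ≠ 0 := by
    rw [Ne, MvPolynomial.C_eq_zero, EmbeddingLike.map_eq_zero_iff]
    exact ha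
  have h2 := eq_zero_of_pow_eq_zero ((mul_eq_zero.1 h0).resolve_right h1)
  have hhx : AlgebraicIndependent ℂ (fun l => h (x l)) :=
    hx.map' (f := (h.restrictScalars ℂ).toAlgHom) h.injective
  obtain ⟨Dy, hDy⟩ := Pool.Agent.TH466.QT.exists_dual_of_indep hhx
  have h3 := congrArg (MvPolynomial.eval fun ij : Fin d × Fin n => Dy ij.1 (y ij.2)) h2
  rw [map_zero, RingHom.map_det] at h3
  have h4 : (MvPolynomial.eval fun ij : Fin d × Fin n => Dy ij.1 (y ij.2)).mapMatrix
      (Matrix.of fun i l => ∑ j, MvPolynomial.X (i, j) * MvPolynomial.C (B j (h (x l)))) =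
      (1 : Matrix (Fin d) (Fin d) Ω) := by
    ext i l
    rw [RingHom.mapMatrix_apply, Matrix.map_apply, Matrix.of_apply, map_sum, Matrix.one_apply]
    have h5 := Pool.Agent.W308.PG.YLOC.expandK (k := ℂ) (K := Ω) y B hy hB (Dy i)
    have h6 : Dy i (h (x l)) = ∑ j, Dy i (y j) * B j (h (x l)) := by
      conv_lhs => rw [h5]
      rw [Pool.Agent.W308.PG.YLOC.der_sum_apply]
      rfl
    have h7 := hDy i l
    rw [h6] at h7
    rw [← (show (if l = i then (1 : Ω) else 0) = if i = l then 1 else 0 by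
      by_cases hil : i = l
      · rw [if_pos hil, if_pos hil.symm]
      · rw [if_neg hil, if_neg (Ne.symm hil)]), ← h7]
    refine Finset.sum_congr rfl fun j _ => ?_
    rw [map_mul, MvPolynomial.eval_X, MvPolynomial.eval_C]
  rw [h4, Matrix.det_one] at h3
  exact one_ne_zero h3

/-- **The conjugates of the functions on the base are constant along the rulings.** -/
theorem ruled_const {n d m : ℕ} (hn : Algebra.trdeg ℂ K = n) {x : Fin d → Ω}
    (hx : AlgebraicIndependent ℂ x) {a : Ω} (ha : a ≠ 0) (hm : 1 ≤ m) {s : K} (hs0 : s ≠ 0)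
    (hs : RegDown K n x a m s) {M1 : IntermediateField ℂ L} {t : L} (ht : Transcendental M1 t)
    (htop : IntermediateField.adjoin M1 {t} = ⊤) {D0 : Derivation ℂ L L} (hDt : D0 t = 1)
    (hDM : ∀ μ : M1, D0 (μ : L) = 0) {DΩ : Derivation ℂ Ω Ω}
    (hDΩ : ∀ z, DΩ (algebraMap L Ω z) = algebraMap L Ω (D0 z)) (h : Ω ≃ₐ[K] Ω) (l : Fin d) :
    DΩ (h (x l)) = 0 := by
  classical
  have hnL : Algebra.trdeg ℂ L = n := Pool.Agent.Y172.trdeg_up hn
  have hfL : FiniteDimensional L Ω := FiniteDimensional.right K L Ω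
  obtain ⟨y, E, i0, w, hy, hE, hyi0, hE0M, hEt, hwt, hdiv, hfin, hinf, hord⟩ :=
    Pool.Agent.R882.UA.frame (k := ℂ) hnL ht htop
  have hD0 : D0 = E i0 := ruling_unique ht htop hDt hEt hDM hE0M
  choose EΩ hEΩ using fun i => exists_lift (L := Ω) hnL (E i)
  have hDE : DΩ = EΩ i0 := der_eq_of_alg (K := L) hnL fun z => by rw [hDΩ, hD0, hEΩ]
  rw [hDE]
  have hyΩ : IsTranscendenceBasis ℂ (fun j => algebraMap L Ω (y j)) := hy.algebraMap_comp
  have hE' : ∀ i j, E i (y j) = if i = j then 1 else 0 := by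
    intro i j
    rw [hE]
    by_cases hij : i = j
    · rw [if_pos hij, if_pos hij.symm]
    · rw [if_neg hij, if_neg (Ne.symm hij)]
  have hdual := lift_dual (L := Ω) hE' hEΩ
  obtain ⟨C, hC⟩ := exists_general (K := K) (m := m) hx ha hyΩ hdual
  obtain ⟨sΩ, hsΩ⟩ : ∃ sΩ, sΩ = algebraMap K Ω s := ⟨_, rfl⟩
  have hsΩ0 : sΩ ≠ 0 := by
    rw [hsΩ, Ne, map_eq_zero]
    exact hs0
  -- the vector fields
  obtain ⟨Dd, hDd⟩ : ∃ Dd : Fin d → Ω → Fin d → Derivation ℂ Ω Ω, ∀ r u i, Dd r u i =
    ∑ j, (algebraMap ℂ Ω (C (i, j)) + if (i, j) = (r, i0) then u else 0) • EΩ j :=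
    ⟨_, fun _ _ _ => rfl⟩
  obtain ⟨q, hq⟩ : ∃ q : Fin d → Polynomial Ω, ∀ r u, (q r).eval u =
      sΩ * TT K x a m (Dd r u) := by
    refine ⟨fun r => Polynomial.C sΩ * MvPolynomial.eval₂ Polynomial.C
      (fun ij => Polynomial.C (algebraMap ℂ Ω (C ij)) + if ij = (r, i0) then Polynomial.X else 0)
      (FP K x a m EΩ), fun r u => ?_⟩
    rw [Polynomial.eval_mul, Polynomial.eval_C]
    congr 1
    have h1 := MvPolynomial.eval₂_comp_left (Polynomial.evalRingHom u) Polynomial.C
      (fun ij : Fin d × Fin n => Polynomial.C (algebraMap ℂ Ω (C ij)) +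
        if ij = (r, i0) then Polynomial.X else 0) (FP K x a m EΩ)
    have h2 : (Polynomial.evalRingHom u).comp Polynomial.C = RingHom.id Ω := by
      ext z
      simp
    rw [h2] at h1
    change (Polynomial.evalRingHom u) _ = _
    rw [h1]
    have h3 := eval_FP K x a m EΩ ((Polynomial.evalRingHom u) ∘
      fun ij : Fin d × Fin n => Polynomial.C (algebraMap ℂ Ω (C ij)) +
        if ij = (r, i0) then Polynomial.X else 0)
    change MvPolynomial.eval _ _ = _
    rw [h3]
    congr 1
    funext i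
    rw [hDd]
    refine Finset.sum_congr rfl fun j _ => ?_
    congr 1
    change Polynomial.eval u _ = _
    rw [Polynomial.eval_add, Polynomial.eval_C]
    split_ifs <;> simp
  -- the vector fields on `L`
  have hlift : ∀ (r : Fin d) (v : L) (i : Fin d), ∃ G : Derivation ℂ L L,
      (∀ z, Dd r (algebraMap L Ω v) i (algebraMap L Ω z) = algebraMap L Ω (G z)) ∧
      G = ∑ j, (algebraMap ℂ L (C (i, j)) + if (i, j) = (r, i0) then v else 0) • E j := by
    intro r v i
    refine ⟨_, fun z => ?_, rfl⟩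
    rw [hDd, Pool.Agent.W308.PG.YLOC.der_sum_apply, Pool.Agent.W308.PG.YLOC.der_sum_apply,
      map_sum]
    refine Finset.sum_congr rfl fun j _ => ?_
    change _ * EΩ j (algebraMap L Ω z) = algebraMap L Ω (_ * E j z)
    rw [hEΩ, map_mul, map_add, ← IsScalarTower.algebraMap_apply ℂ L Ω]
    congr 2
    split_ifs
    · rfl
    · rw [map_zero]
  have htinv : Ge w 0 ((t ^ 2)⁻¹) := by
    right
    rw [w.ord_inv, w.ord_pow]
    push_cast
    linarith
  have ht0 : t ≠ 0 := by
    rintro rfl
    exact ht isAlgebraic_zero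
  have hinf' : ∀ j, DerReg w (E j) := by
    intro j
    by_cases hj : j = i0
    · have h1 := hinf j
      rw [if_pos hj] at h1
      have h2 := derReg_smul (k := ℂ) h1 htinv
      rwa [smul_smul, inv_mul_cancel₀ (pow_ne_zero 2 ht0), one_smul] at h2
    · have h1 := hinf j
      rwa [if_neg hj, one_smul] at h1
  have hconst : ∀ (Q : Place ℂ L), (∀ j, DerReg Q (E j)) → ∀ (r : Fin d) (c : ℂ) (i : Fin d),
      DerReg Q (∑ j, (algebraMap ℂ L (C (i, j)) +
        if (i, j) = (r, i0) then algebraMap ℂ L c else 0) • E j) := by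
    intro Q hQ r c i
    refine derReg_sum _ fun j _ => derReg_smul (hQ j) (Ge.add (Ge.const _) ?_)
    split_ifs
    · exact Ge.const _
    · exact Or.inl rfl
  -- the values at complex points
  have hval : ∀ r (c : ℂ), ∃ p : Polynomial M1,
      algebraMap L Ω (Polynomial.aeval t p) = (q r).eval (algebraMap ℂ Ω c) := by
    intro r c
    choose G hG1 hG2 using hlift r (algebraMap ℂ L c)
    rw [← IsScalarTower.algebraMap_apply ℂ L Ω] at hG1
    have hreg : ∀ Q : Place ℂ L, Divisorial n Q → (∀ j, DerReg Q (E j)) →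
        (q r).eval (algebraMap ℂ Ω c) ∈ RR Ω Q := by
      intro Q hQ hQE
      rw [hq, hsΩ]
      exact reg_L hn hs hQ (G := G) (fun i => by
        rw [hG2]
        exact hconst Q hQE r c i) hG1
    obtain ⟨w0, -, hw0⟩ := hreg w hdiv hinf'
    by_contra hcon
    push Not at hcon
    obtain ⟨w', hw', hw'E, hnr⟩ := hfin w0 (fun p hp => hcon p (by rw [hp, hw0]))
    obtain ⟨w1, hw1r, hw1⟩ := hreg w' hw' hw'E
    have h1 : w1 = w0 := (algebraMap L Ω).injective (by rw [hw1, hw0])
    rw [h1] at hw1r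
    exact hnr hw1r
  have hval' : ∀ r (c : ℂ), (q r).eval (algebraMap ℂ Ω c * algebraMap L Ω (t ^ 2)) ∈
      RR Ω w := by
    intro r c
    have h1 : algebraMap ℂ Ω c * algebraMap L Ω (t ^ 2) =
        algebraMap L Ω (algebraMap ℂ L c * t ^ 2) := by
      rw [map_mul, ← IsScalarTower.algebraMap_apply ℂ L Ω]
    choose G hG1 hG2 using hlift r (algebraMap ℂ L c * t ^ 2)
    rw [h1, hq, hsΩ]
    refine reg_L hn hs hdiv (G := G) (fun i => ?_) hG1
    rw [hG2]
    refine derReg_sum _ fun j _ => ?_
    rw [add_smul]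
    intro f hf
    have h2 : Ge w 0 ((algebraMap ℂ L (C (i, j)) • E j) f) :=
      derReg_smul (hinf' j) (Ge.const _) f hf
    refine Ge.add h2 ?_
    split_ifs with hij
    · have h3 : j = i0 := (Prod.mk.inj hij).2
      have h4 := hinf j
      rw [if_pos h3] at h4
      have h5 := derReg_smul (k := ℂ) h4 (Ge.const (P := w) c) f hf
      rw [smul_smul] at h5
      exact h5
    · rw [zero_smul]
      exact Or.inl rfl
  -- the polynomials are constant
  have hzero : ∀ r i, 1 ≤ i → (q r).coeff i = 0 := by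
    intro r i hi
    let V1 : Submodule ℂ Ω :=
      { carrier := {v | ∃ p : Polynomial M1, algebraMap L Ω (Polynomial.aeval t p) = v}
        add_mem' := by
          rintro _ _ ⟨p, rfl⟩ ⟨p', rfl⟩
          exact ⟨p + p', by rw [map_add, map_add]⟩
        zero_mem' := ⟨0, by rw [map_zero, map_zero]⟩
        smul_mem' := by
          rintro c _ ⟨p, rfl⟩
          refine ⟨Polynomial.C (algebraMap ℂ M1 c) * p, ?_⟩
          rw [map_mul, map_mul, Polynomial.aeval_C, Algebra.smul_def]
          congr 1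
          exact (IsScalarTower.algebraMap_apply ℂ L Ω c).symm }
    obtain ⟨p, hp⟩ : (q r).coeff i ∈ V1 := coeff_mem' V1 (q r) (hval r) i
    have h1 := coeff_mem' (Subalgebra.toSubmodule (RR Ω w))
      ((q r).comp (Polynomial.C (algebraMap L Ω (t ^ 2)) * Polynomial.X)) (fun c => by
        rw [Polynomial.eval_comp, Polynomial.eval_mul, Polynomial.eval_C, Polynomial.eval_X,
          mul_comm]
        exact hval' r c) i
    rw [Polynomial.comp_C_mul_X_coeff] at h1
    obtain ⟨w1, hw1, hw1v⟩ := h1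
    have h2 : w1 = Polynomial.aeval t p * (t ^ 2) ^ i := by
      apply (algebraMap L Ω).injective
      rw [hw1v, map_mul, hp, map_pow (algebraMap L Ω) (t ^ 2) i]
    by_contra hne
    have hp0 : Polynomial.aeval t p ≠ 0 := by
      intro h0
      apply hne
      rw [← hp, h0, map_zero]
    have ht2 : (t ^ 2) ^ i ≠ 0 := pow_ne_zero _ (pow_ne_zero _ ht0)
    have h3 := hw1.resolve_left (by rw [h2]; exact mul_ne_zero hp0 ht2)
    rw [h2, w.ord_mul hp0 ht2, w.ord_pow, w.ord_pow] at h3
    have h4 := hord p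
    have h5 : (1 : ℤ) ≤ i := by exact_mod_cast hi
    push_cast at h3
    nlinarith
  have hne : ∀ r u, TT K x a m (Dd r u) ≠ 0 := by
    intro r u h0
    have h1 : q r = Polynomial.C ((q r).coeff 0) := by
      ext i
      rcases Nat.eq_zero_or_pos i with rfl | hi
      · rw [Polynomial.coeff_C_zero]
      · rw [hzero r i hi, Polynomial.coeff_C_ne_zero (by omega)]
    have h2 : (q r).eval u = (q r).eval 0 := by
      rw [h1, Polynomial.eval_C, Polynomial.eval_C]
    rw [hq, hq, h0, mul_zero] at h2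
    have h3 := (mul_eq_zero.1 h2.symm).resolve_left hsΩ0
    apply hC
    rw [← h3]
    congr 1
    funext i
    rw [hDd]
    refine Finset.sum_congr rfl fun j _ => ?_
    split_ifs <;> rw [add_zero]
  -- the determinants
  obtain ⟨A, hA⟩ : ∃ A : Matrix (Fin d) (Fin d) Ω, ∀ i l', A i l' =
      ∑ j, algebraMap ℂ Ω (C (i, j)) * EΩ j (h (x l')) := ⟨fun i l' => _, fun _ _ => rfl⟩
  obtain ⟨v, hv⟩ : ∃ v : Fin d → Ω, ∀ l', v l' = EΩ i0 (h (x l')) := ⟨_, fun _ => rfl⟩
  have hdet : ∀ (r : Fin d) (u : Ω), (A.updateRow r (A r + u • v)).det ≠ 0 := by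
    intro r u h0
    apply hne r u
    unfold TT
    refine Finset.prod_eq_zero (Finset.mem_univ h) ?_
    have h1 : (Matrix.of fun i l' => Dd r u i (h (x l'))) = A.updateRow r (A r + u • v) := by
      ext i l'
      rw [Matrix.of_apply, hDd, Pool.Agent.W308.PG.YLOC.der_sum_apply, Matrix.updateRow_apply]
      have h2 : ∑ j, ((algebraMap ℂ Ω (C (i, j)) + if (i, j) = (r, i0) then u else 0) • EΩ j)
          (h (x l')) = A i l' + if i = r then u * v l' else 0 := by
        rw [hA]
        have h3 : ∀ j, ((algebraMap ℂ Ω (C (i, j)) + if (i, j) = (r, i0) then u else 0) • EΩ j)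
            (h (x l')) = algebraMap ℂ Ω (C (i, j)) * EΩ j (h (x l')) +
              if j = i0 then (if i = r then u * v l' else 0) else 0 := by
          intro j
          change (algebraMap ℂ Ω (C (i, j)) + if (i, j) = (r, i0) then u else 0) *
            EΩ j (h (x l')) = _
          rw [add_mul]
          congr 1
          by_cases hj : j = i0
          · by_cases hi : i = r
            · rw [if_pos (by rw [hj, hi]), if_pos hj, if_pos hi, hv, hj]
            · rw [if_neg (fun hh => hi (Prod.mk.inj hh).1), if_pos hj, if_neg hi, zero_mul]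
          · rw [if_neg (fun hh => hj (Prod.mk.inj hh).2), if_neg hj, zero_mul]
        rw [Finset.sum_congr rfl fun j _ => h3 j, Finset.sum_add_distrib,
          Finset.sum_ite_eq' Finset.univ i0, if_pos (Finset.mem_univ i0)]
      rw [h2]
      by_cases hi : i = r
      · rw [if_pos hi, if_pos hi, hi]
        rfl
      · rw [if_neg hi, if_neg hi, add_zero]
    rw [h1, h0, zero_pow (by omega), zero_mul]
  have hA0 : A.det ≠ 0 := by
    intro h0
    by_cases hd : Nonempty (Fin d)
    · obtain ⟨r⟩ := hd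
      apply hdet r 0
      rw [zero_smul, add_zero, Matrix.updateRow_eq_self]
      exact h0
    · exact hd ⟨l⟩
  have hcr : ∀ r, (A.updateRow r v).det = 0 := by
    intro r
    by_contra hne'
    apply hdet r (-(A.det / (A.updateRow r v).det))
    rw [Matrix.det_updateRow_add, Matrix.updateRow_eq_self, Matrix.det_updateRow_smul]
    field_simp
    ring
  have hv0 : v = 0 := by
    have h1 := Matrix.mulVec_cramer A.transpose v
    have h2 : Matrix.cramer A.transpose v = 0 := by
      funext r
      rw [Matrix.cramer_transpose_apply, hcr]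
      rfl
    rw [h2, Matrix.mulVec_zero, Matrix.det_transpose] at h1
    exact (smul_eq_zero.1 h1.symm).resolve_left hA0
  rw [← hv, hv0]
  rfl

end

end Pool.Agent.U192.TD
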