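import Pool.Agent.U192.TD.Est

/-!
Pull-backs of pluricanonical forms as tensors: the bound for the norms.
-/

set_option autoImplicit false
set_option linter.overlappingInstances false
set_option linter.unusedSectionVars false

open FF Pool.Agent.W602.GT Pool.Agent.W603.LV Pool.Agent.W619.PQ Pool.Agent.Y172

namespace Pool.Agent.U192.TD

section

variable {U M : Type} [Field U] [Field M] [Algebra ℂ U] [Algebra ℂ M] [Algebra U M]
  [IsScalarTower ℂ U M] [Algebra.EssFiniteType ℂ U]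

/-- **Coordinates of the base** at a place. -/
theorem chart {d n : ℕ} (hU : Algebra.trdeg ℂ U = d) (hM : Algebra.trdeg ℂ M = n)
    {Q : Place ℂ M} (hQ : Divisorial n Q) :
    ∃ (y : Fin d → U) (E : Fin d → Derivation ℂ U U) (c : Fin d → ℤ),
      IsTranscendenceBasis ℂ y ∧ (∀ i j, E i (y j) = if i = j then 1 else 0) ∧
      (∀ j, ∀ D : Derivation ℂ M M, DerReg Q D → Ge Q (c j) (D (algebraMap U M (y j)))) ∧
      (((∀ z : U, Q.ord (algebraMap U M z) = 0) ∧ ∑ j, c j = 0) ∨
        ∃ (P : Place ℂ U) (e : ℕ), Over Q P e ∧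
        Divisorial d P ∧ (∀ i, DerReg P (E i)) ∧ ∑ j, c j = (e : ℤ) - 1) := by
  classical
  by_cases hcon : ∀ z : U, Q.ord (algebraMap U M z) = 0
  · obtain ⟨y, hy⟩ := Pool.Agent.W636.PG.exists_basis ℂ U d hU
    obtain ⟨E, hE⟩ := Pool.Agent.W636.PG.exists_duals ℂ U d y hy
    refine ⟨y, E, fun _ => 0, hy, hE, fun j D hD => ?_, Or.inl ⟨hcon, by simp⟩⟩
    exact hD _ (Or.inr (hcon (y j)).ge)
  · push Not at hcon
    obtain ⟨z, hz0⟩ := hcon
    obtain ⟨e, P, hP⟩ := exists_over (K := U) Q ⟨z, hz0⟩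
    have hPd : Divisorial d P := Pool.Agent.W619.Y.pDIVR.{0, 0} ℂ U M d n P Q e hU hM hP hQ
    obtain ⟨y, E, i0, hl⟩ := exists_loc hU hPd
    refine ⟨y, E, fun j => if j = i0 then (e : ℤ) - 1 else 0, hl.bas, hl.dual, fun j D hD => ?_,
      Or.inr ⟨P, e, hP, hPd, hl.pres, by simp⟩⟩
    by_cases hj : j = i0
    · change Ge Q (if j = i0 then (e : ℤ) - 1 else 0) (D (algebraMap U M (y j)))
      rw [if_pos hj, hj]
      have h1 := ge_der_reg hD (algebraMap U M (y i0))
      have h2 : Q.ord (algebraMap U M (y i0)) = e * P.ord (y i0) := hP.2 (y i0)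
      rw [h2, hl.unif, mul_one] at h1
      exact h1
    · change Ge Q (if j = i0 then (e : ℤ) - 1 else 0) (D (algebraMap U M (y j)))
      rw [if_neg hj]
      exact hD _ (hP.reg.2 (hl.reg j))

/-- change of the coordinates of the base -/
theorem det_change {d : ℕ} {x : Fin d → U} (x' : Fin d → U) {E : Fin d → Derivation ℂ U U}
    (hx : IsTranscendenceBasis ℂ x) (hE : ∀ i j, E i (x j) = if i = j then 1 else 0)
    (D : Fin d → Derivation ℂ M M) :
    (Matrix.of fun i j => D i (algebraMap U M (x' j))).det =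
      (Matrix.of fun i j => D i (algebraMap U M (x j))).det *
        algebraMap U M (Matrix.of fun i j => E i (x' j)).det := by
  have h1 : (Matrix.of fun i j => D i (algebraMap U M (x' j))) =
      (Matrix.of fun i j => D i (algebraMap U M (x j))) *
        (algebraMap U M).mapMatrix (Matrix.of fun i j => E i (x' j)) := by
    ext i j
    rw [Matrix.mul_apply, Matrix.of_apply,
      Pool.Agent.W308.PG.YLOC.expand (k := ℂ) (K := U) (L := M) x E hx hE (D i) (x' j)]
    refine Finset.sum_congr rfl fun l _ => ?_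
    rw [Matrix.of_apply, RingHom.mapMatrix_apply, Matrix.map_apply, Matrix.of_apply, mul_comm]
  rw [h1, Matrix.det_mul, ← RingHom.map_det]

/-- change of the coordinates of the base, for forms -/
theorem form_change {d m : ℕ} {x x' : Fin d → U} {E E' : Fin d → Derivation ℂ U U}
    (hx : IsTranscendenceBasis ℂ x) (hE : ∀ i j, E i (x j) = if i = j then 1 else 0)
    (hx' : IsTranscendenceBasis ℂ x') (hE' : ∀ i j, E' i (x' j) = if i = j then 1 else 0)
    {α : (Fin d → Derivation ℂ U U) → U} (hα : IsPluri m α) (D : Fin d → Derivation ℂ M M) :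
    (Matrix.of fun i j => D i (algebraMap U M (x' j))).det ^ m * algebraMap U M (α E') =
      (Matrix.of fun i j => D i (algebraMap U M (x j))).det ^ m * algebraMap U M (α E) := by
  have h1 := pluri_coord hx' hE' hα E
  rw [det_change x' hx hE D, h1, map_mul, map_pow]
  ring

end

section

variable {K U M : Type} [Field K] [Field U] [Field M] [Algebra ℂ K] [Algebra ℂ U] [Algebra ℂ M]
  [Algebra K M] [Algebra U M] [IsScalarTower ℂ K M] [IsScalarTower ℂ U M]
  [FiniteDimensional K M] [Algebra.EssFiniteType ℂ U] [Algebra.EssFiniteType ℂ M]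

/-- **The values of the pull-back of a form** on combinations of the lifts of a regular frame. -/
theorem tens_bound {d n m q : ℕ} (hU : Algebra.trdeg ℂ U = d) (hn : Algebra.trdeg ℂ M = n)
    {α : (Fin d → Derivation ℂ U U) → U} (hα : IsPluri m α) {wU : Place ℂ U → ℤ}
    {wM : Place ℂ M → ℤ}
    (hw : ∀ (Q : Place ℂ M) (v : Place ℂ U) (e : ℕ), Over Q v e → wM Q = e * wU v)
    (hpos : ∀ v : Place ℂ U, Divisorial d v → ∀ G : Fin d → Derivation ℂ U U,
      (∀ i, DerReg v (G i)) → α G = 0 ∨ 2 * m * wU v ≤ v.ord (α G))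
    {f : Fin q → M} (hf0 : ∀ j, f j ≠ 0) (hfU : ∀ j, ∃ g : U, algebraMap U M g = f j)
    (hf : ∀ j (Q : Place ℂ M), Ge Q (-(wM Q)) (f j))
    {x : Fin d → U} {Ex : Fin d → Derivation ℂ U U} (hx : IsTranscendenceBasis ℂ x)
    (hEx : ∀ i j, Ex i (x j) = if i = j then 1 else 0) {P : Place ℂ K} (hP : Divisorial n P)
    {y : Fin n → K} {E : Fin n → Derivation ℂ K K} {i0 : Fin n} (hl : Loc P y E i0)
    {E' : Fin n → Derivation ℂ M M}
    (hE' : ∀ i f, E' i (algebraMap K M f) = algebraMap K M (E i f)) (C : Fin d → Fin n → ℂ)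
    {z : M} (hz : z = (Matrix.of fun i l => ∑ j, algebraMap ℂ M (C i j) *
      E' j (algebraMap U M (x l))).det ^ m * algebraMap U M (α Ex)) (hz0 : z ≠ 0)
    (Q : Place ℂ M) (e : ℕ) (hQ : Over Q P e) (j : Fin q) :
    (m : ℤ) * (1 - e) ≤ Q.ord z + 2 * m * Q.ord (f j) := by
  classical
  have hQd : Divisorial n Q := divisorial_up hQ hP
  obtain ⟨y', F, c, hy', hF, hc, hcase⟩ := chart (U := U) hU hn hQd
  obtain ⟨D, hD⟩ : ∃ D : Fin d → Derivation ℂ M M, ∀ i g, D i g =
      ∑ j, algebraMap ℂ M (C i j) * E' j g :=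
    ⟨fun i => ∑ j, algebraMap ℂ M (C i j) • E' j, fun i g => by
      rw [Pool.Agent.W308.PG.YLOC.der_sum_apply]
      rfl⟩
  have hz' : z = (Matrix.of fun i l => ∑ j, algebraMap ℂ M (C i j) *
      E' j (algebraMap U M (y' l))).det ^ m * algebraMap U M (α F) := by
    have h1 := form_change hy' hF hx hEx hα D
    have h2 : ∀ u : Fin d → U, (Matrix.of fun i l => ∑ j, algebraMap ℂ M (C i j) *
        E' j (algebraMap U M (u l))) = Matrix.of fun i l => D i (algebraMap U M (u l)) := by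
      intro u
      ext i l
      rw [Matrix.of_apply, Matrix.of_apply, hD]
    rw [hz, h2, h2, h1]
  have h1 := comb_ge hn hQ hQd hl hE' C (x := fun l => algebraMap U M (y' l)) hc
  obtain ⟨t, ht⟩ : ∃ t, t = (Matrix.of fun i l => ∑ j, algebraMap ℂ M (C i j) *
      E' j (algebraMap U M (y' l))).det := ⟨_, rfl⟩
  rw [← ht] at h1 hz'
  have hα0 : algebraMap U M (α F) ≠ 0 := by
    intro h
    apply hz0
    rw [hz', h, mul_zero]
  have ht0 : t ^ m ≠ 0 := by
    intro h
    apply hz0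
    rw [hz', h, zero_mul]
  have h2 : (m : ℤ) * (∑ j, c j + 1 - e) ≤ Q.ord (t ^ m) := (h1.pow m).resolve_left ht0
  have h3 : Q.ord z = Q.ord (t ^ m) + Q.ord (algebraMap U M (α F)) := by
    rw [hz', Q.ord_mul ht0 hα0]
  have hm0 : (0 : ℤ) ≤ m := Int.natCast_nonneg m
  rcases hcase with ⟨htriv, hc0⟩ | ⟨v, e', hv, hvd, hvF, hc0⟩
  · obtain ⟨g, hg⟩ := hfU j
    rw [h3, ← hg, htriv, htriv]
    rw [hc0] at h2
    linarith
  · have h4 := (hpos v hvd F hvF).resolve_left (fun h => hα0 (by rw [h, map_zero]))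
    have h5 := (hf j Q).resolve_left (hf0 j)
    have h6 := hw Q v e' hv
    have h7 : Q.ord (algebraMap U M (α F)) = e' * v.ord (α F) := hv.2 _
    have h8 : (e' : ℤ) * (2 * m * wU v) ≤ e' * v.ord (α F) :=
      mul_le_mul_of_nonneg_left h4 (Int.natCast_nonneg _)
    have h9 : (1 : ℤ) ≤ e' := by exact_mod_cast hv.1
    rw [h3, h7]
    rw [hc0] at h2
    rw [h6] at h5
    have h10 : 2 * (m : ℤ) * (-(e' * wU v)) ≤ 2 * m * Q.ord (f j) :=
      mul_le_mul_of_nonneg_left h5 (by positivity)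
    have h11 : (m : ℤ) * (1 - e) ≤ m * (e' - 1 + 1 - e) :=
      mul_le_mul_of_nonneg_left (by linarith) hm0
    nlinarith

end

end Pool.Agent.U192.TD
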